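import Pool.Agent.N945.TC.Own

/-! Probability that a ball is cut by the clustering at one level. -/

namespace Pool.Agent.N945.TC

open MeasureTheory ProbabilityTheory
open scoped ENNReal unitInterval

/-- The minimum of i.i.d. variables sits at a given index with probability at most `1 / n`. -/
theorem min_prob {ι T : Type*} [MeasurableSpace T] [LinearOrder T] [TopologicalSpace T]
    [OrderClosedTopology T] [OpensMeasurableSpace T] [SecondCountableTopology T]
    (μ : Measure T) [IsProbabilityMeasure μ] (S : Finset ι) {i : ι} (hi : i ∈ S) :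
    iid ι μ {ω | ∀ j ∈ S, j ≠ i → ω i < ω j} ≤ ((S.card : ℕ) : ℝ≥0∞)⁻¹ := by
  classical
  set A : ι → Set (ι → T) := fun i => {ω | ∀ j ∈ S, j ≠ i → ω i < ω j} with hA
  have hmeas : ∀ i, MeasurableSet (A i) := by
    intro i
    have : A i = ⋂ j ∈ S, ({ω | j = i} ∪ {ω | ω i < ω j}) := by
      ext ω
      simp only [hA, Set.mem_ofPred_eq, Set.mem_iInter, Set.mem_union]
      refine forall_congr' fun j => forall_congr' fun _ => ?_
      tauto
    rw [this]
    refine Finset.measurableSet_biInter _ (fun j _ => ?_)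
    exact (MeasurableSet.const _).union
      (measurableSet_lt (measurable_pi_apply _) (measurable_pi_apply _))
  have heq : ∀ j ∈ S, iid ι μ (A i) = iid ι μ (A j) := by
    intro j hj
    have hinj : Function.Injective (fun k => Equiv.swap i j k) := (Equiv.swap i j).injective
    conv_rhs => rw [← iid_map_inj μ (fun k => Equiv.swap i j k) hinj]
    rw [Measure.map_apply (measurable_pi_lambda _ (fun _ => measurable_pi_apply _)) (hmeas j)]
    congr 1
    ext ω
    simp only [hA, Set.mem_ofPred_eq, Set.mem_preimage]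
    have hswap : ∀ k ∈ S, Equiv.swap i j k ∈ S := by
      intro k hk
      by_cases h1 : k = i
      · rw [h1, Equiv.swap_apply_left]; exact hj
      · by_cases h2 : k = j
        · rw [h2, Equiv.swap_apply_right]; exact hi
        · rw [Equiv.swap_apply_of_ne_of_ne h1 h2]; exact hk
    constructor
    · intro h k hk hkj
      rw [Equiv.swap_apply_right]
      refine h _ (hswap k hk) ?_
      intro h'
      apply hkj
      have : Equiv.swap i j (Equiv.swap i j k) = Equiv.swap i j i := by rw [h']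
      rw [Equiv.swap_apply_self, Equiv.swap_apply_left] at this
      exact this
    · intro h k hk hki
      have := h (Equiv.swap i j k) (hswap k hk) (by
        intro h'
        apply hki
        have : Equiv.swap i j (Equiv.swap i j k) = Equiv.swap i j j := by rw [h']
        rw [Equiv.swap_apply_self, Equiv.swap_apply_right] at this
        exact this)
      rw [Equiv.swap_apply_right, Equiv.swap_apply_self] at this
      exact this
  have hdisj : Set.PairwiseDisjoint (S : Set ι) A := by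
    intro a ha b hb hab
    refine Set.disjoint_left.2 (fun ω h1 h2 => ?_)
    exact lt_asymm (h1 b hb hab.symm) (h2 a ha hab)
  have hsum : ∑ j ∈ S, iid ι μ (A j) ≤ 1 := by
    rw [← measure_biUnion_finset hdisj (fun j _ => hmeas j)]
    exact prob_le_one
  have hsum2 : ((S.card : ℕ) : ℝ≥0∞) * iid ι μ (A i) ≤ 1 := by
    calc ((S.card : ℕ) : ℝ≥0∞) * iid ι μ (A i) = ∑ j ∈ S, iid ι μ (A i) := by
          rw [Finset.sum_const, nsmul_eq_mul]
      _ = ∑ j ∈ S, iid ι μ (A j) := Finset.sum_congr rfl heq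
      _ ≤ 1 := hsum
  have hc : ((S.card : ℕ) : ℝ≥0∞) ≠ 0 := by
    rw [Nat.cast_ne_zero]
    exact (Finset.card_pos.2 ⟨i, hi⟩).ne'
  rw [ENNReal.le_inv_iff_mul_le, mul_comm]
  exact hsum2

theorem tie_prob {ι T : Type*} [MeasurableSpace T] [MeasurableSingletonClass T]
    [MeasurableEq T]
    (μ : Measure T) [IsProbabilityMeasure μ] [NullSingletonClass μ] {i j : ι} (hij : i ≠ j) :
    iid ι μ {ω | ω i = ω j} = 0 := by
  have hind : iIndepFun (fun (i : ι) (u : ι → T) => u i) (iid ι μ) := by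
    have := iIndepFun_infinitePi (P := fun _ : ι => μ) (X := fun _ : ι => (id : T → T))
      (fun _ => measurable_id)
    simpa using this
  have h2 := hind.indepFun hij
  have h3 := (indepFun_iff_map_prod_eq_prod_map_map (measurable_pi_apply i).aemeasurable
    (measurable_pi_apply j).aemeasurable).1 h2
  have hm : ∀ i : ι, (iid ι μ).map (fun ω => ω i) = μ := fun i =>
    (measurePreserving_eval_infinitePi (fun _ : ι => μ) i).map_eq
  rw [hm i, hm j] at h3
  have hdiag : MeasurableSet (Set.diagonal T) := measurableSet_diagonal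
  have e : {ω : ι → T | ω i = ω j} = (fun ω : ι → T => (ω i, ω j)) ⁻¹' (Set.diagonal T) := by
    ext ω; simp
  rw [e, ← Measure.map_apply ((measurable_pi_apply i).prodMk (measurable_pi_apply j)) hdiag, h3,
    Measure.measure_prod_null hdiag]
  refine Filter.Eventually.of_forall (fun x => ?_)
  have : (Prod.mk x ⁻¹' (Set.diagonal T)) = {x} := by
    ext y; simp [eq_comm]
  show μ (Prod.mk x ⁻¹' (Set.diagonal T)) = 0
  rw [this]
  simp

/-- A uniform variable lies in a given interval with probability at most its length. -/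
theorem unif_prob {ι : Type*} (i : ι) (a b : ℝ) :
    iid ι (volume : Measure I) {ω | a ≤ (ω i : ℝ) ∧ (ω i : ℝ) < b} ≤ ENNReal.ofReal (b - a) := by
  have hm : (iid ι (volume : Measure I)).map (fun ω => ω i) = volume :=
    (measurePreserving_eval_infinitePi (fun _ : ι => (volume : Measure I)) i).map_eq
  have hs : MeasurableSet {x : I | a ≤ (x : ℝ) ∧ (x : ℝ) < b} :=
    measurable_subtype_coe measurableSet_Ico
  have e : {ω : ι → I | a ≤ (ω i : ℝ) ∧ (ω i : ℝ) < b} =
      (fun ω : ι → I => ω i) ⁻¹' {x : I | a ≤ (x : ℝ) ∧ (x : ℝ) < b} := rfl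
  rw [e, ← Measure.map_apply (measurable_pi_apply i) hs, hm, unitInterval.volume_apply]
  calc volume (Subtype.val '' {x : I | a ≤ (x : ℝ) ∧ (x : ℝ) < b}) ≤ volume (Set.Ico a b) := by
        refine measure_mono ?_
        rintro _ ⟨x, hx, rfl⟩
        exact hx
    _ = ENNReal.ofReal (b - a) := Real.volume_Ico

variable {d : ℕ}

/-- The box of radius `r` around the origin. -/
noncomputable def box (d r : ℕ) : Finset (Site d) := Fintype.piFinset (fun _ => Finset.Icc (-(r : ℤ)) r)

theorem mem_box {r : ℕ} {c : Site d} : c ∈ box d r ↔ nd c 0 ≤ r := by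
  unfold box
  rw [Fintype.mem_piFinset, nd_le_iff]
  refine forall_congr' fun i => ?_
  rw [Finset.mem_Icc]
  simp only [Pi.zero_apply]
  omega

theorem card_box (r : ℕ) : (box d r).card = (2 * r + 1) ^ d := by
  unfold box
  rw [Fintype.card_piFinset]
  simp only [Int.card_Icc, Finset.prod_const, Finset.card_univ, Fintype.card_fin]
  congr 1
  omega

variable {B M : ℕ}

/-- No cluster of level `k` contains the ball of radius `ρ` around the origin. -/
def Fail (B M k ρ : ℕ) (ω : Idx d → I) : Prop :=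
  ¬ ∃ c, ∀ w, nd (0 : Site d) w ≤ ρ → own B M ω k c w

/-- The centre `c` reaches the ball but does not cover it. -/
def Cut (B M k ρ : ℕ) (c : Site d) (ω : Idx d → I) : Prop :=
  (nd c 0 : ℝ) - ρ ≤ Ls B M k * (1 + (ω (c, k, true) : ℝ)) ∧
    Ls B M k * (1 + (ω (c, k, true) : ℝ)) < (nd c 0 : ℝ) + ρ

/-- The index set of the clocks which compete with that of `c`. -/
noncomputable def clocks (B M k : ℕ) (c : Site d) : Finset (Idx d) := by
  classical
  exact (insert c (box d (Ls B M k))).image (fun c' => (c', k, false))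

/-- The clock of `c` is smaller than all clocks in the box. -/
def MinE (B M k : ℕ) (c : Site d) (ω : Idx d → I) : Prop :=
  ∀ j ∈ clocks B M k c, j ≠ (c, k, false) → ω (c, k, false) < ω j

theorem fail_sub (k ρ : ℕ) (ω : Idx d → I) (h : Fail B M k ρ ω) :
    (∃ c ∈ box d (2 * Ls B M k + ρ), ∃ c' ∈ box d (2 * Ls B M k + ρ), c ≠ c' ∧
      ω (c, k, false) = ω (c', k, false)) ∨
    ∃ c ∈ box d (2 * Ls B M k + ρ), Cut B M k ρ c ω ∧ MinE B M k c ω := by
  classical
  by_contra hcon
  push Not at hcon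
  obtain ⟨hno, hall⟩ := hcon
  apply h
  have hL : (0 : ℝ) ≤ (Ls B M k : ℝ) := Nat.cast_nonneg _
  have hu0 : ∀ c : Site d, (0 : ℝ) ≤ (ω (c, k, true) : ℝ) := fun c => (ω (c, k, true)).2.1
  have hu1 : ∀ c : Site d, (ω (c, k, true) : ℝ) ≤ 1 := fun c => (ω (c, k, true)).2.2
  -- reaching centres
  set R : Finset (Site d) := (box d (2 * Ls B M k + ρ)).filter
    (fun c => (nd c 0 : ℝ) - ρ ≤ Ls B M k * (1 + (ω (c, k, true) : ℝ))) with hR
  have hR0 : (0 : Site d) ∈ R := by
    rw [hR, Finset.mem_filter, mem_box]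
    refine ⟨by simp, ?_⟩
    have h1 := hu0 0
    have h2 : (0 : ℝ) ≤ Ls B M k * (1 + (ω (0, k, true) : ℝ)) := by positivity
    have h3 : (0 : ℝ) ≤ (ρ : ℝ) := Nat.cast_nonneg _
    simp only [nd_self, Nat.cast_zero]
    linarith
  have hreach : ∀ c w : Site d, nd 0 w ≤ ρ → reach B M ω k c w → c ∈ R := by
    intro c w hw hc
    have h1 := reach_le hc
    have h2 := nd_tri c w 0
    rw [nd_comm w 0] at h2
    rw [hR, Finset.mem_filter, mem_box]
    refine ⟨by omega, ?_⟩
    unfold reach at hc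
    have h3 : (nd c 0 : ℝ) ≤ (nd c w : ℝ) + (ρ : ℝ) := by
      have : nd c 0 ≤ nd c w + ρ := by omega
      exact_mod_cast this
    linarith
  obtain ⟨c, hcR, hmin⟩ := Finset.exists_min_image R (fun c => ω (c, k, false)) ⟨0, hR0⟩
  have hcb : c ∈ box d (2 * Ls B M k + ρ) := (Finset.mem_filter.1 hcR).1
  have hlt : ∀ c' ∈ R, c' ≠ c → ω (c, k, false) < ω (c', k, false) := by
    intro c' hc' hne
    exact lt_of_le_of_ne (hmin c' hc') (hno c hcb c' (Finset.mem_filter.1 hc').1 hne.symm)
  have hMin : MinE B M k c ω := by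
    intro j hj hne
    unfold clocks at hj
    rw [Finset.mem_image] at hj
    obtain ⟨c', hc', rfl⟩ := hj
    have hne' : c' ≠ c := fun h => hne (by rw [h])
    rw [Finset.mem_insert] at hc'
    rcases hc' with hc' | hc'
    · exact absurd hc' hne'
    · refine hlt c' ?_ hne'
      rw [mem_box] at hc'
      rw [hR, Finset.mem_filter, mem_box]
      refine ⟨by omega, ?_⟩
      have h1 : (nd c' 0 : ℝ) ≤ Ls B M k := by exact_mod_cast hc'
      have h2 : (0 : ℝ) ≤ (ρ : ℝ) := Nat.cast_nonneg _
      have h3 : (0 : ℝ) ≤ Ls B M k * (ω (c', k, true) : ℝ) := mul_nonneg hL (hu0 c')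
      nlinarith
  have hcov : (nd c 0 : ℝ) + ρ ≤ Ls B M k * (1 + (ω (c, k, true) : ℝ)) := by
    by_contra hlt'
    push Not at hlt'
    exact hall c hcb ⟨(Finset.mem_filter.1 hcR).2, hlt'⟩ hMin
  refine ⟨c, fun w hw => ⟨?_, fun c' hne hc' => hlt c' (hreach c' w hw hc') hne⟩⟩
  unfold reach
  have h2 := nd_tri c 0 w
  have h3 : (nd c w : ℝ) ≤ (nd c 0 : ℝ) + (ρ : ℝ) := by
    have : nd c w ≤ nd c 0 + ρ := by omega
    exact_mod_cast this
  linarith

theorem minE_prob (k : ℕ) (c : Site d) :
    iid (Idx d) (volume : Measure I) {ω | MinE B M k c ω} ≤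
      (((2 * Ls B M k + 1) ^ d : ℕ) : ℝ≥0∞)⁻¹ := by
  classical
  have h1 := min_prob (volume : Measure I) (clocks B M k c) (i := (c, k, false))
    (by unfold clocks; rw [Finset.mem_image]; exact ⟨c, Finset.mem_insert_self _ _, rfl⟩)
  refine le_trans h1 ?_
  rw [ENNReal.inv_le_inv]
  rw [← card_box (d := d)]
  have h2 : (clocks B M k c).card = (insert c (box d (Ls B M k))).card := by
    unfold clocks
    rw [Finset.card_image_of_injective]
    intro a b hab
    exact (Prod.mk.injEq _ _ _ _ ▸ hab).1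
  rw [h2]
  exact_mod_cast Finset.card_le_card (Finset.subset_insert _ _)

theorem cut_prob (k ρ : ℕ) (hL : 0 < Ls B M k) (c : Site d) :
    iid (Idx d) (volume : Measure I) {ω | Cut B M k ρ c ω} ≤
      ENNReal.ofReal (2 * ρ / Ls B M k) := by
  have hL' : (0 : ℝ) < Ls B M k := by exact_mod_cast hL
  have e : {ω : Idx d → I | Cut B M k ρ c ω} =
      {ω | ((nd c 0 : ℝ) - ρ) / Ls B M k - 1 ≤ (ω (c, k, true) : ℝ) ∧
        (ω (c, k, true) : ℝ) < ((nd c 0 : ℝ) + ρ) / Ls B M k - 1} := by
    ext ω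
    simp only [Cut, Set.mem_ofPred_eq]
    constructor
    · rintro ⟨h1, h2⟩
      constructor
      · rw [sub_le_iff_le_add, div_le_iff₀ hL']
        linarith
      · rw [lt_sub_iff_add_lt, lt_div_iff₀ hL']
        linarith
    · rintro ⟨h1, h2⟩
      rw [sub_le_iff_le_add, div_le_iff₀ hL'] at h1
      rw [lt_sub_iff_add_lt, lt_div_iff₀ hL'] at h2
      constructor <;> linarith
  rw [e]
  refine (unif_prob _ _ _).trans ?_
  apply ENNReal.ofReal_le_ofReal
  have : ((nd c 0 : ℝ) + ρ) / Ls B M k - 1 - (((nd c 0 : ℝ) - ρ) / Ls B M k - 1) =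
      2 * ρ / Ls B M k := by
    field_simp
    ring
  rw [this]

theorem measurableSet_cut (k ρ : ℕ) (c : Site d) :
    MeasurableSet {ω : Idx d → I | Cut B M k ρ c ω} := by
  have hm : Measurable (fun ω : Idx d → I => (Ls B M k : ℝ) * (1 + (ω (c, k, true) : ℝ))) :=
    (((measurable_subtype_coe).comp (measurable_pi_apply (c, k, true))).const_add 1).const_mul _
  exact (measurableSet_le measurable_const hm).inter (measurableSet_lt hm measurable_const)

theorem measurableSet_minE (k : ℕ) (c : Site d) :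
    MeasurableSet {ω : Idx d → I | MinE B M k c ω} := by
  have : {ω : Idx d → I | MinE B M k c ω} = ⋂ j ∈ clocks B M k c,
      ({ω : Idx d → I | j = (c, k, false)} ∪ {ω | ω (c, k, false) < ω j}) := by
    ext ω
    simp only [MinE, Set.mem_ofPred_eq, Set.mem_iInter, Set.mem_union]
    refine forall_congr' fun j => forall_congr' fun _ => ?_
    tauto
  rw [this]
  refine Finset.measurableSet_biInter _ (fun j _ => ?_)
  exact (MeasurableSet.const _).union
    (measurableSet_lt (measurable_pi_apply _) (measurable_pi_apply _))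

theorem clocks_level {k : ℕ} {c : Site d} {j : Idx d} (hj : j ∈ clocks B M k c) :
    ∃ c', j = (c', k, false) := by
  classical
  unfold clocks at hj
  rw [Finset.mem_image] at hj
  obtain ⟨c', _, rfl⟩ := hj
  exact ⟨c', rfl⟩

theorem self_mem_clocks (k : ℕ) (c : Site d) : (c, k, false) ∈ clocks B M k c := by
  classical
  unfold clocks
  rw [Finset.mem_image]
  exact ⟨c, Finset.mem_insert_self _ _, rfl⟩

theorem triple_prob (k ρ : ℕ) (hL : 0 < Ls B M k) (c : Site d) {A : Set (Idx d → I)}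
    (hA : MeasurableSet A) (W : Finset (Idx d)) (hW : ∀ i ∈ W, i.2.1 < k)
    (hdep : ∀ ω ω' : Idx d → I, (∀ i ∈ W, ω i = ω' i) → (ω ∈ A ↔ ω' ∈ A)) :
    iid (Idx d) (volume : Measure I) (A ∩ {ω | Cut B M k ρ c ω ∧ MinE B M k c ω}) ≤
      iid (Idx d) (volume : Measure I) A * (ENNReal.ofReal (2 * ρ / Ls B M k) *
        (((2 * Ls B M k + 1) ^ d : ℕ) : ℝ≥0∞)⁻¹) := by
  classical
  have hcut := measurableSet_cut (B := B) (M := M) k ρ c
  have hmin := measurableSet_minE (B := B) (M := M) k c
  have e1 : iid (Idx d) (volume : Measure I)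
      ({ω | Cut B M k ρ c ω} ∩ {ω | MinE B M k c ω}) =
      iid (Idx d) (volume : Measure I) {ω | Cut B M k ρ c ω} *
        iid (Idx d) (volume : Measure I) {ω | MinE B M k c ω} := by
    refine iid_indep (volume : Measure I) (A := {(c, k, true)}) (B := clocks B M k c) ?_ hcut hmin
      ?_ ?_
    · rw [Finset.disjoint_left]
      intro j hj hj'
      rw [Finset.mem_singleton] at hj
      obtain ⟨c', hc'⟩ := clocks_level hj'
      rw [hj] at hc'
      simp at hc'
    · intro ω ω' h
      have h1 := h (c, k, true) (Finset.mem_singleton_self _)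
      simp only [Set.mem_ofPred_eq, Cut, h1]
    · intro ω ω' h
      simp only [Set.mem_ofPred_eq, MinE]
      refine forall_congr' fun j => forall_congr' fun hj => forall_congr' fun _ => ?_
      rw [h j hj, h _ (self_mem_clocks k c)]
  have e2 : iid (Idx d) (volume : Measure I)
      (A ∩ ({ω | Cut B M k ρ c ω} ∩ {ω | MinE B M k c ω})) =
      iid (Idx d) (volume : Measure I) A * iid (Idx d) (volume : Measure I)
        ({ω | Cut B M k ρ c ω} ∩ {ω | MinE B M k c ω}) := by
    refine iid_indep (volume : Measure I) (A := W) (B := insert (c, k, true) (clocks B M k c))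
      ?_ hA (hcut.inter hmin) hdep ?_
    · rw [Finset.disjoint_left]
      intro j hj hj'
      have h1 := hW j hj
      rw [Finset.mem_insert] at hj'
      rcases hj' with rfl | hj'
      · simp at h1
      · obtain ⟨c', rfl⟩ := clocks_level hj'
        simp at h1
    · intro ω ω' h
      have h1 := h (c, k, true) (Finset.mem_insert_self _ _)
      simp only [Set.mem_inter_iff, Set.mem_ofPred_eq, Cut, MinE, h1]
      refine and_congr Iff.rfl ?_
      refine forall_congr' fun j => forall_congr' fun hj => forall_congr' fun _ => ?_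
      rw [h j (Finset.mem_insert_of_mem hj), h _ (Finset.mem_insert_of_mem (self_mem_clocks k c))]
  have e3 : A ∩ {ω | Cut B M k ρ c ω ∧ MinE B M k c ω} =
      A ∩ ({ω | Cut B M k ρ c ω} ∩ {ω | MinE B M k c ω}) := rfl
  rw [e3, e2, e1]
  gcongr
  · exact cut_prob k ρ hL c
  · exact minE_prob k c

/-- The probability that a ball is cut at level `k`, jointly with an event of lower levels. -/
theorem fail_prob (k ρ : ℕ) (hL : 0 < Ls B M k) (hρ : ρ ≤ Ls B M k) {A : Set (Idx d → I)}
    (hA : MeasurableSet A) (W : Finset (Idx d)) (hW : ∀ i ∈ W, i.2.1 < k)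
    (hdep : ∀ ω ω' : Idx d → I, (∀ i ∈ W, ω i = ω' i) → (ω ∈ A ↔ ω' ∈ A)) :
    iid (Idx d) (volume : Measure I) (A ∩ {ω | Fail B M k ρ ω}) ≤
      (3 ^ d : ℕ) * ENNReal.ofReal (2 * ρ / Ls B M k) * iid (Idx d) (volume : Measure I) A := by
  classical
  set P := iid (Idx d) (volume : Measure I) with hP
  set C := box d (2 * Ls B M k + ρ) with hC
  have hsub : A ∩ {ω | Fail B M k ρ ω} ⊆
      (⋃ c ∈ C, ⋃ c' ∈ C, {ω | c ≠ c' ∧ ω (c, k, false) = ω (c', k, false)}) ∪
      ⋃ c ∈ C, (A ∩ {ω | Cut B M k ρ c ω ∧ MinE B M k c ω}) := by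
    rintro ω ⟨hωA, hω⟩
    rcases fail_sub k ρ ω hω with ⟨c, hc, c', hc', h1⟩ | ⟨c, hc, h1⟩
    · left
      simp only [Set.mem_iUnion]
      exact ⟨c, hc, c', hc', h1⟩
    · right
      simp only [Set.mem_iUnion]
      exact ⟨c, hc, hωA, h1⟩
  have hnull : P (⋃ c ∈ C, ⋃ c' ∈ C, {ω | c ≠ c' ∧ ω (c, k, false) = ω (c', k, false)}) = 0 := by
    refine (measure_biUnion_null_iff C.countable_toSet).2 (fun c _ => ?_)
    refine (measure_biUnion_null_iff C.countable_toSet).2 (fun c' _ => ?_)
    by_cases hcc : c = c'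
    · have : {ω : Idx d → I | c ≠ c' ∧ ω (c, k, false) = ω (c', k, false)} = ∅ := by
        ext ω; simp [hcc]
      rw [this]; simp
    · refine measure_mono_null (fun ω hω => hω.2) (tie_prob (volume : Measure I)
        (i := ((c, k, false) : Idx d)) (j := (c', k, false)) ?_)
      intro h
      exact hcc (Prod.mk.injEq _ _ _ _ ▸ h).1
  refine (measure_mono hsub).trans ((measure_union_le _ _).trans ?_)
  rw [hnull, zero_add]
  refine (measure_biUnion_finset_le _ _).trans ?_
  refine (Finset.sum_le_card_nsmul _ _ _ (fun c _ => triple_prob k ρ hL c hA W hW hdep)).trans ?_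
  rw [nsmul_eq_mul, hC, card_box]
  have hcard : (2 * (2 * Ls B M k + ρ) + 1) ^ d ≤ 3 ^ d * (2 * Ls B M k + 1) ^ d := by
    rw [← mul_pow]
    exact Nat.pow_le_pow_left (by omega) d
  have hne : (((2 * Ls B M k + 1) ^ d : ℕ) : ℝ≥0∞) ≠ 0 := by
    rw [Nat.cast_ne_zero]; positivity
  calc (((2 * (2 * Ls B M k + ρ) + 1) ^ d : ℕ) : ℝ≥0∞) * (P A *
        (ENNReal.ofReal (2 * ρ / Ls B M k) * (((2 * Ls B M k + 1) ^ d : ℕ) : ℝ≥0∞)⁻¹))
      ≤ ((3 ^ d * (2 * Ls B M k + 1) ^ d : ℕ) : ℝ≥0∞) * (P A *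
        (ENNReal.ofReal (2 * ρ / Ls B M k) * (((2 * Ls B M k + 1) ^ d : ℕ) : ℝ≥0∞)⁻¹)) := by
        gcongr
    _ = (3 ^ d : ℕ) * ENNReal.ofReal (2 * ρ / Ls B M k) * P A *
        ((((2 * Ls B M k + 1) ^ d : ℕ) : ℝ≥0∞) * (((2 * Ls B M k + 1) ^ d : ℕ) : ℝ≥0∞)⁻¹) := by
        rw [Nat.cast_mul]; ring
    _ = (3 ^ d : ℕ) * ENNReal.ofReal (2 * ρ / Ls B M k) * P A := by
        rw [ENNReal.mul_inv_cancel hne (ENNReal.natCast_ne_top _), mul_one]

end Pool.Agent.N945.TC
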