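import Pool.Agent.N945.TC.Toast

/-! Diameter of the components, progress, locality and equivariance of the colouring step. -/

namespace Pool.Agent.N945.TC

variable {d : ℕ} {O O' : Site d → Site d → Prop} {g : ℕ} {s s' : St d}

/-- Every chain component of `V` has diameter at most `D`. -/
def Diam (V : Set (Site d)) (D : ℕ) : Prop := ∀ w z, w ∈ V → Chain V w z → nd w z ≤ D

/-- Clusters have radius at most `R`. -/
def Rad (O : Site d → Site d → Prop) (R : ℕ) : Prop := ∀ c v, O c v → nd c v ≤ R

theorem diam_init : Diam (dom (fun _ : Site d => (none : Option (ZMod 2 × Fin 3)))) 0 := by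
  intro w z hw
  exact absurd rfl hw

/-- `p` belongs to the new piece of the centre `c`. -/
def InP (O : Site d → Site d → Prop) (g : ℕ) (s : St d) (c p : Site d) : Prop :=
  ∃ v, piece O g (dom s) c v ∧ (p = v ∨ (p ∈ dom s ∧ ∃ e ∈ dom s, nd v e ≤ 6 ∧ Chain (dom s) e p))

theorem diam_step {D R : ℕ} (hO : Uniq O) (hR : Rad O R) (hD : Diam (dom s) D)
    (hg : D + 12 ≤ g) : Diam (dom (step O g s)) (2 * R + 12 + 2 * D) := by
  -- the new pieces are closed under links
  have h1 : ∀ c p q, InP O g s c p → link (dom (step O g s)) p q → InP O g s c q := by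
    rintro c p q ⟨v, hv, hp⟩ ⟨hq, hpq⟩
    have hvp : nd v p ≤ D + 6 := by
      rcases hp with rfl | ⟨_, e, he, hve, hep⟩
      · simp
      · have := hD e p he hep
        have := nd_tri v e p
        omega
    by_cases hq0 : s q = none
    · obtain ⟨b, hb⟩ := Option.ne_none_iff_exists'.1 hq
      rcases step_cases hO hb with h | ⟨_, c', hc', _⟩
      · rw [hq0] at h; exact absurd h (by simp)
      · have hcc : c = c' := core_uniq hO hv.1 hc'.1 (by have := nd_tri v p q; omega)
        subst hcc
        exact ⟨q, hc', Or.inl rfl⟩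
    · refine ⟨v, hv, Or.inr ⟨hq0, ?_⟩⟩
      rcases hp with rfl | ⟨hps, e, he, hve, hep⟩
      · exact ⟨q, hq0, hpq, Relation.ReflTransGen.refl⟩
      · exact ⟨e, he, hve, hep.tail ⟨hq0, hpq⟩⟩
  intro w z hw hwz
  have hQ : (w ∈ dom s ∧ z ∈ dom s ∧ Chain (dom s) w z) ∨
      ∃ c, (∃ v0, piece O g (dom s) c v0 ∧ nd w v0 ≤ D + 6) ∧ InP O g s c z := by
    induction hwz with
    | refl =>
      by_cases hw0 : s w = none
      · right
        obtain ⟨b, hb⟩ := Option.ne_none_iff_exists'.1 hw
        rcases step_cases hO hb with h | ⟨_, c', hc', _⟩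
        · rw [hw0] at h; exact absurd h (by simp)
        · exact ⟨c', ⟨w, hc', by simp⟩, ⟨w, hc', Or.inl rfl⟩⟩
      · left
        exact ⟨hw0, hw0, Relation.ReflTransGen.refl⟩
    | @tail p q hwp hpq ih =>
      rcases ih with ⟨hw0, hp0, hch⟩ | ⟨c, hA, hP⟩
      · by_cases hq0 : s q = none
        · right
          obtain ⟨b, hb⟩ := Option.ne_none_iff_exists'.1 hpq.1
          rcases step_cases hO hb with h | ⟨_, c', hc', _⟩
          · rw [hq0] at h; exact absurd h (by simp)
          · refine ⟨c', ⟨q, hc', ?_⟩, ⟨q, hc', Or.inl rfl⟩⟩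
            have h2 := hD w p hw0 hch
            have h3 := nd_tri w p q
            have h4 := hpq.2
            omega
        · left
          exact ⟨hw0, hq0, hch.tail ⟨hq0, hpq.2⟩⟩
      · right
        exact ⟨c, hA, h1 c p q hP hpq⟩
  rcases hQ with ⟨hw0, _, hch⟩ | ⟨c, ⟨v0, hv0, hwv⟩, ⟨v, hv, hp⟩⟩
  · have := hD w z hw0 hch
    omega
  · have hvz : nd v z ≤ D + 6 := by
      rcases hp with rfl | ⟨_, e, he, hve, hep⟩
      · simp
      · have := hD e z he hep
        have := nd_tri v e z
        omega
    have h2 := hR c v0 (core_self hv0.1)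
    have h3 := hR c v (core_self hv.1)
    have h4 := nd_tri v0 c v
    rw [nd_comm v0 c] at h4
    have h5 := nd_tri w v0 z
    have h6 := nd_tri v0 v z
    omega

/-- A site whose large neighbourhood lies in one cluster gets coloured. -/
theorem progress {D : ℕ} (hO : Uniq O) (hD : Diam (dom s) D) {c v : Site d}
    (h : ∀ w, nd v w ≤ D + 6 + g → O c w) : step O g s v ≠ none := by
  by_cases hv : s v = none
  · have hp : piece O g (dom s) c v := by
      refine ⟨fun w hw => h w (by omega), ?_⟩
      intro w hw hvw z hz z' hz' y hy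
      refine h y ?_
      have h1 := hD w z hw hz
      have h2 := nd_tri v w z
      have h3 := nd_tri v z z'
      have h4 := nd_tri v z' y
      omega
    rw [step_of_piece hO hv hp]
    simp
  · rw [step_of_ne hv]; exact hv

theorem chain_local {D : ℕ} (hD : Diam (dom s) D) {v : Site d}
    (hs : ∀ w, nd v w ≤ D + 3 → s w = s' w) {w z : Site d} (hw : w ∈ dom s) (hvw : nd v w ≤ 3)
    (hz : Chain (dom s) w z) : Chain (dom s') w z := by
  induction hz with
  | refl => exact Relation.ReflTransGen.refl
  | @tail p q hwp hpq ih =>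
    refine ih.tail ⟨?_, hpq.2⟩
    have h1 := hD w q hw (hwp.tail hpq)
    have h2 := nd_tri v w q
    rw [mem_dom, ← hs q (by omega)]
    exact hpq.1

theorem piece_local {D : ℕ} (hD' : Diam (dom s') D) {v : Site d}
    (hs : ∀ w, nd v w ≤ D + 3 → s w = s' w)
    (hOO : ∀ c w, nd v w ≤ D + 6 + g → (O c w ↔ O' c w)) {c : Site d}
    (hp : piece O g (dom s) c v) : piece O' g (dom s') c v := by
  refine ⟨fun w hw => (hOO c w (by omega)).1 (hp.1 w hw), ?_⟩
  intro w hw hvw z hz z' hz' y hy
  have hw' : w ∈ dom s := by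
    rw [mem_dom, hs w (by omega)]; exact hw
  have hz2 : Chain (dom s) w z :=
    chain_local hD' (fun w hw => (hs w hw).symm) hw hvw hz
  refine (hOO c y ?_).1 (hp.2 w hw' hvw z hz2 z' hz' y hy)
  have h1 := hD' w z hw hz
  have h2 := nd_tri v w z
  have h3 := nd_tri v z z'
  have h4 := nd_tri v z' y
  omega

theorem wrongNear_local {D : ℕ} {v : Site d} (hs : ∀ w, nd v w ≤ D + 3 → s w = s' w)
    {c : Site d} {r : ℕ} (hr : r ≤ 2) (h : wrongNear s c v r) : wrongNear s' c v r := by
  obtain ⟨w, ⟨a, ha, ha'⟩, h1⟩ := h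
  have := nd_le_n1 v w
  exact ⟨w, ⟨a, by rw [← hs w (by omega)]; exact ha, ha'⟩, h1⟩

/-- The step is local. -/
theorem step_local {D : ℕ} (hD : Diam (dom s) D) (hD' : Diam (dom s') D) {v : Site d}
    (hs : ∀ w, nd v w ≤ D + 3 → s w = s' w)
    (hOO : ∀ c w, nd v w ≤ D + 6 + g → (O c w ↔ O' c w)) :
    step O g s v = step O' g s' v := by
  have hsym : ∀ w, nd v w ≤ D + 3 → s' w = s w := fun w hw => (hs w hw).symm
  have hp : (fun c => piece O g (dom s) c v) = fun c => piece O' g (dom s') c v := by
    funext c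
    refine propext ⟨piece_local hD' hs hOO, piece_local hD hsym (fun c w h => (hOO c w h).symm)⟩
  have hf : (fun c => newVal s c v) = fun c => newVal s' c v := by
    funext c
    have h2 : wrongNear s c v 2 = wrongNear s' c v 2 :=
      propext ⟨wrongNear_local hs le_rfl, wrongNear_local hsym le_rfl⟩
    have h1 : wrongNear s c v 1 = wrongNear s' c v 1 :=
      propext ⟨wrongNear_local hs (by omega), wrongNear_local hsym (by omega)⟩
    unfold newVal
    rw [h1, h2]
  unfold step
  rw [hp, hf, hs v (by simp)]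

/-- Translate an owner relation. -/
def trO (a : Site d) (O : Site d → Site d → Prop) : Site d → Site d → Prop :=
  fun c w => O (c + a) (w + a)

theorem uniq_trO (a : Site d) (hO : Uniq O) : Uniq (trO a O) := by
  intro c c' v h h'
  exact add_right_cancel (hO _ _ _ h h')

theorem core_tr (a : Site d) (c v : Site d) : core (trO a O) g c v ↔ core O g (c + a) (v + a) := by
  constructor
  · intro h w hw
    have := h (w - a) (by
      rw [← nd_add_right a, sub_add_cancel]; exact hw)
    unfold trO at this
    rwa [sub_add_cancel] at this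
  · intro h w hw
    exact h (w + a) (by rw [nd_add_right]; exact hw)

theorem mem_dom_tr (a : Site d) (w : Site d) : w ∈ dom (fun v => s (v + a)) ↔ w + a ∈ dom s :=
  Iff.rfl

theorem chain_tr (a : Site d) {w z : Site d} (h : Chain (dom (fun v => s (v + a))) w z) :
    Chain (dom s) (w + a) (z + a) := by
  induction h with
  | refl => exact Relation.ReflTransGen.refl
  | @tail p q _ hpq ih =>
    exact ih.tail ⟨hpq.1, by rw [nd_add_right]; exact hpq.2⟩

theorem chain_tr' (a : Site d) {w z : Site d} (h : Chain (dom s) w z) :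
    Chain (dom (fun v => s (v + a))) (w - a) (z - a) := by
  induction h with
  | refl => exact Relation.ReflTransGen.refl
  | @tail p q _ hpq ih =>
    refine ih.tail ⟨?_, ?_⟩
    · rw [mem_dom_tr, sub_add_cancel]; exact hpq.1
    · rw [← nd_add_right a, sub_add_cancel, sub_add_cancel]; exact hpq.2

theorem piece_tr (a : Site d) (c v : Site d) :
    piece (trO a O) g (dom (fun v => s (v + a))) c v ↔ piece O g (dom s) (c + a) (v + a) := by
  constructor
  · rintro ⟨h1, h2⟩
    refine ⟨(core_tr a c v).1 h1, ?_⟩
    intro w hw hvw z hz z' hz'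
    have := h2 (w - a) (by rw [mem_dom_tr, sub_add_cancel]; exact hw)
      (by rw [← nd_add_right a, sub_add_cancel]; exact hvw) (z - a) (chain_tr' a hz) (z' - a)
      (by rw [← nd_add_right a, sub_add_cancel, sub_add_cancel]; exact hz')
    rw [core_tr, sub_add_cancel] at this
    exact this
  · rintro ⟨h1, h2⟩
    refine ⟨(core_tr a c v).2 h1, ?_⟩
    intro w hw hvw z hz z' hz'
    rw [core_tr]
    exact h2 (w + a) hw (by rw [nd_add_right]; exact hvw) (z + a) (chain_tr a hz) (z' + a)
      (by rw [nd_add_right]; exact hz')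

theorem wrong_tr (a : Site d) (c w : Site d) :
    wrong (fun v => s (v + a)) c w ↔ wrong s (c + a) (w + a) := by
  unfold wrong
  rw [add_sub_add_right_eq_sub]

theorem wrongNear_tr (a : Site d) (c v : Site d) (r : ℕ) :
    wrongNear (fun v => s (v + a)) c v r ↔ wrongNear s (c + a) (v + a) r := by
  constructor
  · rintro ⟨w, hw, h⟩
    exact ⟨w + a, (wrong_tr a c w).1 hw, by rw [n1_add_right]; exact h⟩
  · rintro ⟨w, hw, h⟩
    refine ⟨w - a, (wrong_tr a c _).2 (by rw [sub_add_cancel]; exact hw), ?_⟩
    rw [← n1_add_right a, sub_add_cancel]; exact h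

theorem newVal_tr (a : Site d) (c v : Site d) :
    newVal (fun v => s (v + a)) c v = newVal s (c + a) (v + a) := by
  unfold newVal
  rw [add_sub_add_right_eq_sub, propext (wrongNear_tr a c v 1), propext (wrongNear_tr a c v 2)]

/-- The step commutes with translations. -/
theorem step_tr (hO : Uniq O) (a v : Site d) :
    step (trO a O) g (fun v => s (v + a)) v = step O g s (v + a) := by
  by_cases hv : s (v + a) = none
  · by_cases hp : ∃ c, piece O g (dom s) c (v + a)
    · obtain ⟨c, hc⟩ := hp
      rw [step_of_piece hO hv hc]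
      have hc' : piece (trO a O) g (dom (fun v => s (v + a))) (c - a) v := by
        rw [piece_tr, sub_add_cancel]; exact hc
      have := step_of_piece (s := fun v => s (v + a)) (v := v) (uniq_trO a hO) hv hc'
      rw [this, newVal_tr, sub_add_cancel]
    · rw [step_of_not hv hp]
      refine step_of_not (s := fun v => s (v + a)) hv ?_
      rintro ⟨c, hc⟩
      exact hp ⟨c + a, (piece_tr a c v).1 hc⟩
  · rw [step_of_ne hv]
    exact step_of_ne (s := fun v => s (v + a)) hv

end Pool.Agent.N945.TC
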