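import Mathlib

/-! Winding numbers of proper 3-colourings of the square lattice: deterministic part. -/

namespace Pool.Agent.N945.TC

/-- The increment of the height lift of a 3-colouring along an edge. -/
def dl (a b : Fin 3) : ℤ := if a = b then 0 else if b = a + 1 then 1 else -1

theorem dl_plaq : ∀ (a b c d : Fin 3), a ≠ b → b ≠ c → a ≠ d → d ≠ c →
    dl a b + dl b c = dl a d + dl d c := by decide

theorem dl_abs : ∀ a b : Fin 3, |dl a b| ≤ 1 := by decide

theorem dl_odd : ∀ a b : Fin 3, a ≠ b → dl a b % 2 = 1 := by decide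

theorem dl_mod3 : ∀ a b : Fin 3, (dl a b - ((b.val : ℤ) - (a.val : ℤ))) % 3 = 0 := by decide

/-- Sum of the increments along a path of colours. -/
def Ssum (c : ℕ → Fin 3) (n : ℕ) : ℤ := ∑ i ∈ Finset.range n, dl (c i) (c (i + 1))

theorem Ssum_zero (c : ℕ → Fin 3) : Ssum c 0 = 0 := by simp [Ssum]

theorem Ssum_succ (c : ℕ → Fin 3) (n : ℕ) : Ssum c (n + 1) = Ssum c n + dl (c n) (c (n + 1)) := by
  simp [Ssum, Finset.sum_range_succ]

theorem Ssum_add (c : ℕ → Fin 3) (m n : ℕ) :
    Ssum c (m + n) = Ssum c m + Ssum (fun i => c (m + i)) n := by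
  induction n with
  | zero => simp [Ssum_zero]
  | succ n ih =>
    rw [← Nat.add_assoc, Ssum_succ, ih, Ssum_succ, Nat.add_assoc]
    ring_nf

theorem Ssum_abs (c : ℕ → Fin 3) (n : ℕ) : |Ssum c n| ≤ n := by
  induction n with
  | zero => simp [Ssum_zero]
  | succ n ih =>
    rw [Ssum_succ]
    have h1 := dl_abs (c n) (c (n + 1))
    rw [abs_le] at *
    push_cast
    constructor <;> omega

theorem Ssum_parity (c : ℕ → Fin 3) (n : ℕ) (h : ∀ i < n, c i ≠ c (i + 1)) :
    Ssum c n % 2 = (n : ℤ) % 2 := by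
  induction n with
  | zero => simp [Ssum_zero]
  | succ n ih =>
    rw [Ssum_succ]
    have h1 := dl_odd (c n) (c (n + 1)) (h n (Nat.lt_succ_self n))
    have h2 := ih (fun i hi => h i (Nat.lt_succ_of_lt hi))
    push_cast
    omega

theorem Ssum_mod3 (c : ℕ → Fin 3) (n : ℕ) :
    (Ssum c n - (((c n).val : ℤ) - ((c 0).val : ℤ))) % 3 = 0 := by
  induction n with
  | zero => simp [Ssum_zero]
  | succ n ih =>
    rw [Ssum_succ]
    have h1 := dl_mod3 (c n) (c (n + 1))
    omega

theorem Ssum_closed (c : ℕ → Fin 3) (n : ℕ) (h : c n = c 0) : (3 : ℤ) ∣ Ssum c n := by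
  have := Ssum_mod3 c n
  rw [h] at this
  omega

/-- Horizontal increment sum. -/
def Hs (x : ℤ × ℤ → Fin 3) (a b : ℤ) (n : ℕ) : ℤ := Ssum (fun i => x (a + (i : ℤ), b)) n

/-- Vertical increment sum. -/
def Vs (x : ℤ × ℤ → Fin 3) (a b : ℤ) (m : ℕ) : ℤ := Ssum (fun j => x (a, b + (j : ℤ))) m

/-- Proper colouring of the square lattice. -/
def Prop2 (x : ℤ × ℤ → Fin 3) : Prop :=
  ∀ i j : ℤ, x (i, j) ≠ x (i + 1, j) ∧ x (i, j) ≠ x (i, j + 1)

/-- The increments around the boundary of a rectangle cancel. -/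
def RectOK (x : ℤ × ℤ → Fin 3) (a b : ℤ) (n m : ℕ) : Prop :=
  Hs x a b n + Vs x (a + n) b m = Vs x a b m + Hs x a (b + m) n ∧
    ∀ i : ℕ, i < n → x (a + i, b) ≠ x (a + (i + 1 : ℕ), b)

theorem strip_ok (x : ℤ × ℤ → Fin 3) (hx : Prop2 x) (a b : ℤ) (m : ℕ) :
    dl (x (a, b)) (x (a + 1, b)) + Vs x (a + 1) b m =
      Vs x a b m + dl (x (a, b + m)) (x (a + 1, b + m)) := by
  induction m with
  | zero => simp [Vs, Ssum_zero]
  | succ m ih =>
    unfold Vs at *
    rw [Ssum_succ, Ssum_succ]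
    have h := dl_plaq (x (a, b + m)) (x (a + 1, b + m)) (x (a + 1, b + (m + 1 : ℕ)))
      (x (a, b + (m + 1 : ℕ))) (hx a (b + m)).1
      (by have := (hx (a + 1) (b + m)).2; push_cast; rw [← add_assoc]; exact this)
      (by have := (hx a (b + m)).2; push_cast; rw [← add_assoc]; exact this)
      (by exact (hx a (b + (m + 1 : ℕ))).1)
    linarith

theorem rect_ok (x : ℤ × ℤ → Fin 3) (hx : Prop2 x) (a b : ℤ) (n m : ℕ) : RectOK x a b n m := by
  refine ⟨?_, fun i _ => ?_⟩
  · induction n with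
    | zero => simp [Hs, Ssum_zero]
    | succ n ih =>
      have h := strip_ok x hx (a + n) b m
      have e1 : Hs x a b (n + 1) = Hs x a b n + dl (x (a + n, b)) (x (a + n + 1, b)) := by
        unfold Hs; rw [Ssum_succ]; push_cast; rw [← add_assoc]
      have e2 : Hs x a (b + m) (n + 1) =
          Hs x a (b + m) n + dl (x (a + n, b + m)) (x (a + n + 1, b + m)) := by
        unfold Hs; rw [Ssum_succ]; push_cast; rw [← add_assoc]
      have e3 : a + ((n + 1 : ℕ) : ℤ) = a + n + 1 := by push_cast; ring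
      rw [e1, e2, e3]
      linarith
  · have := (hx (a + i) b).1
    push_cast
    rw [← add_assoc]
    exact this

/-- `RectOK` only depends on the colours of the boundary. -/
theorem rectOK_congr {x x' : ℤ × ℤ → Fin 3} {a b : ℤ} {n m : ℕ}
    (h1 : ∀ i : ℕ, i ≤ n → x (a + i, b) = x' (a + i, b))
    (h2 : ∀ i : ℕ, i ≤ n → x (a + i, b + m) = x' (a + i, b + m))
    (h3 : ∀ j : ℕ, j ≤ m → x (a, b + j) = x' (a, b + j))
    (h4 : ∀ j : ℕ, j ≤ m → x (a + n, b + j) = x' (a + n, b + j)) :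
    RectOK x a b n m ↔ RectOK x' a b n m := by
  have cS : ∀ (c c' : ℕ → Fin 3) (k : ℕ), (∀ i ≤ k, c i = c' i) → Ssum c k = Ssum c' k := by
    intro c c' k h
    unfold Ssum
    refine Finset.sum_congr rfl (fun i hi => ?_)
    rw [Finset.mem_range] at hi
    rw [h i hi.le, h (i + 1) hi]
  unfold RectOK Hs Vs
  rw [cS _ (fun i => x' (a + (i : ℤ), b)) n (fun i hi => h1 i hi),
    cS (fun i => x (a + (i : ℤ), b + m)) (fun i => x' (a + (i : ℤ), b + m)) n
      (fun i hi => h2 i hi),
    cS (fun j => x (a, b + (j : ℤ))) (fun j => x' (a, b + (j : ℤ))) m (fun i hi => h3 i hi),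
    cS (fun j => x (a + n, b + (j : ℤ))) (fun j => x' (a + n, b + (j : ℤ))) m
      (fun i hi => h4 i hi)]
  refine and_congr Iff.rfl (forall_congr' fun i => forall_congr' fun hi => ?_)
  rw [h1 i hi.le, h1 (i + 1) hi]

/-- Six rectangles of width at most `h` glue to the annulus. -/
theorem annulus_glue (x : ℤ × ℤ → Fin 3) (N h : ℕ) (hN : N ≤ 6 * h)
    (hrect : ∀ i < 6, RectOK x ((min (i * h) N : ℕ) : ℤ) 0 (min ((i + 1) * h) N - min (i * h) N) h)
    (hper : ∀ j : ℤ, x (N, j) = x (0, j)) :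
    Hs x 0 0 N = Hs x 0 h N ∧ ∀ i : ℕ, i < N → x (i, 0) ≠ x ((i + 1 : ℕ), 0) := by
  have key : ∀ i ≤ 6, (Hs x 0 0 (min (i * h) N) + Vs x ((min (i * h) N : ℕ) : ℤ) 0 h
      = Vs x 0 0 h + Hs x 0 h (min (i * h) N)) ∧
      ∀ k : ℕ, k < min (i * h) N → x (k, 0) ≠ x ((k + 1 : ℕ), 0) := by
    intro i
    induction i with
    | zero =>
      intro _
      simp [Hs, Ssum_zero]
    | succ i ih =>
      intro hi
      obtain ⟨h1, h2⟩ := ih (by omega)
      obtain ⟨h3, h4⟩ := hrect i (by omega)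
      have hle : min (i * h) N ≤ min ((i + 1) * h) N := by
        apply min_le_min _ le_rfl
        exact Nat.mul_le_mul_right h (Nat.le_succ i)
      set p := min (i * h) N with hp
      set q := min ((i + 1) * h) N with hq
      have hpq : p + (q - p) = q := by omega
      have hpq' : (p : ℤ) + ((q - p : ℕ) : ℤ) = (q : ℤ) := by exact_mod_cast hpq
      have e1 : ∀ b : ℤ, Hs x 0 b q = Hs x 0 b p + Hs x p b (q - p) := by
        intro b
        unfold Hs
        conv_lhs => rw [← hpq]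
        rw [Ssum_add]
        congr 2
        funext k
        push_cast
        ring_nf
      rw [hpq'] at h3
      rw [zero_add] at h3
      refine ⟨?_, ?_⟩
      · rw [e1, e1]
        linarith
      · intro k hk
        by_cases hkp : k < p
        · exact h2 k hkp
        · have := h4 (k - p) (by omega)
          have e5 : (p : ℤ) + ((k - p : ℕ) : ℤ) = (k : ℤ) := by
            exact_mod_cast (by omega : p + (k - p) = k)
          have e6 : (p : ℤ) + ((k - p + 1 : ℕ) : ℤ) = ((k + 1 : ℕ) : ℤ) := by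
            exact_mod_cast (by omega : p + (k - p + 1) = k + 1)
          rw [e5, e6] at this
          exact this
  obtain ⟨h1, h2⟩ := key 6 le_rfl
  have hmin : min (6 * h) N = N := min_eq_right hN
  rw [hmin] at h1 h2
  have e : Vs x (N : ℤ) 0 h = Vs x 0 0 h := by
    unfold Vs
    congr 1
    funext j
    exact hper _
  rw [e] at h1
  exact ⟨by linarith, h2⟩

end Pool.Agent.N945.TC
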