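import Pool.Agent.N945.TC.Inj
import Pool.Agent.N945.TC.Wind

/-! Block approximations of finitary 3-colourings of the square lattice, transplanted to
cylinders. -/

namespace Pool.Agent.N945.TC

open MeasureTheory ProbabilityTheory
open scoped ENNReal

variable {T : Type*} [MeasurableSpace T]

/-- The block field with window function `G`. -/
def Z (G : (ℤ × ℤ → T) → Fin 3) (u : ℤ × ℤ → T) (v : ℤ × ℤ) : Fin 3 := G (fun k => u (v + k))

/-- `G` only depends on the labels in the box of radius `r`. -/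
def Win (G : (ℤ × ℤ → T) → Fin 3) (r : ℕ) : Prop :=
  ∀ u u' : ℤ × ℤ → T, (∀ k : ℤ × ℤ, |k.1| ≤ (r : ℤ) → |k.2| ≤ (r : ℤ) → u k = u' k) → G u = G u'

omit [MeasurableSpace T] in
theorem Z_congr {G : (ℤ × ℤ → T) → Fin 3} {r : ℕ} (hw : Win G r) {u u' : ℤ × ℤ → T}
    {v v' : ℤ × ℤ}
    (h : ∀ k : ℤ × ℤ, |k.1| ≤ (r : ℤ) → |k.2| ≤ (r : ℤ) → u (v + k) = u' (v' + k)) :
    Z G u v = Z G u' v' := hw _ _ h

theorem measurable_Z {G : (ℤ × ℤ → T) → Fin 3} (hG : Measurable G) (v : ℤ × ℤ) :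
    Measurable (fun u => Z G u v) :=
  hG.comp (measurable_pi_lambda _ (fun _ => measurable_pi_apply _))

omit [MeasurableSpace T] in
/-- The row sums only depend on the labels near the row. -/
theorem Hs_congr {G : (ℤ × ℤ → T) → Fin 3} {r : ℕ} (hw : Win G r) {u u' : ℤ × ℤ → T}
    {a b a' b' : ℤ} {n : ℕ}
    (h : ∀ x y : ℤ, -(r : ℤ) ≤ x → x ≤ n + r → |y| ≤ (r : ℤ) →
      u (a + x, b + y) = u' (a' + x, b' + y)) :
    Hs (Z G u) a b n = Hs (Z G u') a' b' n := by
  unfold Hs Ssum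
  refine Finset.sum_congr rfl (fun i hi => ?_)
  rw [Finset.mem_range] at hi
  have key : ∀ j : ℕ, j ≤ n → Z G u (a + (j : ℤ), b) = Z G u' (a' + (j : ℤ), b') := by
    intro j hj
    refine Z_congr hw (fun k h1 h2 => ?_)
    rw [abs_le] at h1
    have := h (j + k.1) k.2 (by omega) (by omega) h2
    have e1 : ((a + (j : ℤ), b) + k : ℤ × ℤ) = (a + (j + k.1), b + k.2) := by
      ext <;> simp [add_assoc]
    have e2 : ((a' + (j : ℤ), b') + k : ℤ × ℤ) = (a' + (j + k.1), b' + k.2) := by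
      ext <;> simp [add_assoc]
    rw [e1, e2]
    exact this
  show dl (Z G u (a + (i : ℤ), b)) (Z G u (a + ((i + 1 : ℕ) : ℤ), b)) =
    dl (Z G u' (a' + (i : ℤ), b')) (Z G u' (a' + ((i + 1 : ℕ) : ℤ), b'))
  rw [key i hi.le, key (i + 1) hi]

theorem measurable_dl {α : Type*} [MeasurableSpace α] {f g : α → Fin 3} (hf : Measurable f)
    (hg : Measurable g) : Measurable (fun a => dl (f a) (g a)) := by
  have h : Measurable (fun p : Fin 3 × Fin 3 => dl p.1 p.2) := Measurable.of_discrete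
  exact h.comp (hf.prodMk hg)

theorem measurable_Ssum {α : Type*} [MeasurableSpace α] {c : α → ℕ → Fin 3}
    (hc : ∀ i, Measurable (fun a => c a i)) (n : ℕ) : Measurable (fun a => Ssum (c a) n) := by
  unfold Ssum
  exact Finset.measurable_sum _ (fun i _ => measurable_dl (hc i) (hc (i + 1)))

theorem measurable_Hs {α : Type*} [MeasurableSpace α] {x : α → ℤ × ℤ → Fin 3}
    (hx : ∀ v, Measurable (fun a => x a v)) (a b : ℤ) (n : ℕ) :
    Measurable (fun t => Hs (x t) a b n) :=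
  measurable_Ssum (fun _ => hx _) n

theorem measurable_Vs {α : Type*} [MeasurableSpace α] {x : α → ℤ × ℤ → Fin 3}
    (hx : ∀ v, Measurable (fun a => x a v)) (a b : ℤ) (n : ℕ) :
    Measurable (fun t => Vs (x t) a b n) :=
  measurable_Ssum (fun _ => hx _) n

theorem measurableSet_rectOK {α : Type*} [MeasurableSpace α] {x : α → ℤ × ℤ → Fin 3}
    (hx : ∀ v, Measurable (fun a => x a v)) (a b : ℤ) (n m : ℕ) :
    MeasurableSet {t | RectOK (x t) a b n m} := by
  have e : {t | RectOK (x t) a b n m} =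
      {t | Hs (x t) a b n + Vs (x t) (a + n) b m = Vs (x t) a b m + Hs (x t) a (b + m) n} ∩
        ⋂ i ∈ Finset.range n, {t | x t (a + (i : ℕ), b) = x t (a + (i + 1 : ℕ), b)}ᶜ := by
    ext t
    simp [RectOK]
  rw [e]
  refine MeasurableSet.inter ?_ ?_
  · exact measurableSet_eq_fun ((measurable_Hs hx _ _ _).add (measurable_Vs hx _ _ _))
      ((measurable_Vs hx _ _ _).add (measurable_Hs hx _ _ _))
  · refine Finset.measurableSet_biInter _ (fun i _ => ?_)
    exact (measurableSet_eq_fun (hx _) (hx _)).compl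

/-- The boundary vertices of a rectangle. -/
def bdry (a b : ℤ) (n m : ℕ) : Finset (ℤ × ℤ) :=
  ((Finset.range (n + 1)).image (fun i : ℕ => (a + (i : ℤ), b)) ∪
    (Finset.range (n + 1)).image (fun i : ℕ => (a + (i : ℤ), b + m))) ∪
  ((Finset.range (m + 1)).image (fun j : ℕ => (a, b + (j : ℤ))) ∪
    (Finset.range (m + 1)).image (fun j : ℕ => (a + n, b + (j : ℤ))))

theorem card_bdry (a b : ℤ) (n m : ℕ) : (bdry a b n m).card ≤ 2 * (n + 1) + 2 * (m + 1) := by
  unfold bdry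
  refine (Finset.card_union_le _ _).trans ?_
  have h1 := Finset.card_union_le ((Finset.range (n + 1)).image (fun i : ℕ => (a + (i : ℤ), b)))
    ((Finset.range (n + 1)).image (fun i : ℕ => (a + (i : ℤ), b + m)))
  have h2 := Finset.card_union_le ((Finset.range (m + 1)).image (fun j : ℕ => (a, b + (j : ℤ))))
    ((Finset.range (m + 1)).image (fun j : ℕ => (a + (n : ℤ), b + (j : ℤ))))
  have c1 := Finset.card_image_le (s := Finset.range (n + 1)) (f := fun i : ℕ => (a + (i : ℤ), b))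
  have c2 := Finset.card_image_le (s := Finset.range (n + 1))
    (f := fun i : ℕ => (a + (i : ℤ), b + m))
  have c3 := Finset.card_image_le (s := Finset.range (m + 1)) (f := fun j : ℕ => (a, b + (j : ℤ)))
  have c4 := Finset.card_image_le (s := Finset.range (m + 1))
    (f := fun j : ℕ => (a + (n : ℤ), b + (j : ℤ)))
  rw [Finset.card_range] at c1 c2 c3 c4
  omega

theorem rectOK_of_agree {x x' : ℤ × ℤ → Fin 3} {a b : ℤ} {n m : ℕ}
    (h : ∀ v ∈ bdry a b n m, x v = x' v) : RectOK x a b n m ↔ RectOK x' a b n m := by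
  refine rectOK_congr (fun i hi => h _ ?_) (fun i hi => h _ ?_) (fun j hj => h _ ?_)
    (fun j hj => h _ ?_)
  all_goals simp only [bdry, Finset.mem_union, Finset.mem_image, Finset.mem_range]
  · exact Or.inl (Or.inl ⟨i, by omega, rfl⟩)
  · exact Or.inl (Or.inr ⟨i, by omega, rfl⟩)
  · exact Or.inr (Or.inl ⟨j, by omega, rfl⟩)
  · exact Or.inr (Or.inr ⟨j, by omega, rfl⟩)

/-- The standing hypotheses: a block field `Z G` which agrees at every site, up to probability
`δ`, with an almost surely proper 3-colouring. -/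
structure Approx (μ : Measure T) (G : (ℤ × ℤ → T) → Fin 3) (r : ℕ) (δ : ℝ≥0∞) : Prop where
  meas : Measurable G
  win : Win G r
  close : ∃ X : (ℤ × ℤ → T) → ℤ × ℤ → Fin 3, (∀ᵐ u ∂(iid (ℤ × ℤ) μ), Prop2 (X u)) ∧
    ∀ v, iid (ℤ × ℤ) μ {u | X u v ≠ Z G u v} ≤ δ

variable {μ : Measure T} [IsProbabilityMeasure μ] {G : (ℤ × ℤ → T) → Fin 3} {r : ℕ} {δ : ℝ≥0∞}

omit [IsProbabilityMeasure μ] in
theorem Approx.rect_le (hA : Approx μ G r δ) (a b : ℤ) (n m : ℕ) :
    iid (ℤ × ℤ) μ {u | ¬ RectOK (Z G u) a b n m} ≤ ((2 * (n + 1) + 2 * (m + 1) : ℕ) : ℝ≥0∞) * δ := by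
  obtain ⟨X, hX, hδ⟩ := hA.close
  have hsub : {u | ¬ RectOK (Z G u) a b n m} ⊆
      {u | ¬ Prop2 (X u)} ∪ ⋃ v ∈ bdry a b n m, {u | X u v ≠ Z G u v} := by
    intro u hu
    by_contra hcon
    simp only [Set.mem_union, Set.mem_ofPred_eq, Set.mem_iUnion, not_or, not_not, not_exists,
      exists_prop, not_and] at hcon
    obtain ⟨h1, h2⟩ := hcon
    apply hu
    have h3 : ∀ v ∈ bdry a b n m, X u v = Z G u v := fun v hv => h2 v hv
    exact (rectOK_of_agree h3).1 (rect_ok _ h1 a b n m)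
  refine (measure_mono hsub).trans ?_
  refine (measure_union_le _ _).trans ?_
  have h0 : iid (ℤ × ℤ) μ {u | ¬ Prop2 (X u)} = 0 := hX
  rw [h0, zero_add]
  refine (measure_biUnion_finset_le _ _).trans ?_
  refine (Finset.sum_le_card_nsmul _ _ δ (fun v _ => hδ v)).trans ?_
  rw [nsmul_eq_mul]
  gcongr
  exact card_bdry a b n m

/-- Horizontal rearrangement of the labels. -/
def plc (φ : ℤ → ℤ → ℤ) (u : ℤ × ℤ → T) : ℤ × ℤ → T := fun v => u (φ v.2 v.1, v.2)

/-- A placement of period `N`, injective on horizontal windows of fewer than `A + 1` columns. -/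
structure IsPlc (φ : ℤ → ℤ → ℤ) (N A : ℕ) : Prop where
  per : ∀ x y, φ y (x + N) = φ y x
  inj : ∀ y x x', |x - x'| < (A : ℤ) → φ y x = φ y x' → x = x'

theorem measurable_plc (φ : ℤ → ℤ → ℤ) : Measurable (plc φ : (ℤ × ℤ → T) → _) :=
  measurable_pi_lambda _ (fun _ => measurable_pi_apply _)

theorem Approx.plc_rect_le (hA : Approx μ G r δ) {φ : ℤ → ℤ → ℤ} {N A : ℕ} (hφ : IsPlc φ N A)
    (a b : ℤ) (n m : ℕ) (hn : n + 2 * r < A) :
    iid (ℤ × ℤ) μ {u | ¬ RectOK (Z G (plc φ u)) a b n m} ≤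
      ((2 * (n + 1) + 2 * (m + 1) : ℕ) : ℝ≥0∞) * δ := by
  have hE : MeasurableSet {u : ℤ × ℤ → T | ¬ RectOK (Z G u) a b n m} :=
    (measurableSet_rectOK (fun v => measurable_Z hA.meas v) a b n m).compl
  have h := iid_comp_injOn (κ := ℤ × ℤ) μ (φ := fun v : ℤ × ℤ => (φ v.2 v.1, v.2))
    (W := {v : ℤ × ℤ | a - r ≤ v.1 ∧ v.1 ≤ a + n + r}) ?_ hE ?_
  · calc iid (ℤ × ℤ) μ {u | ¬ RectOK (Z G (plc φ u)) a b n m}
        = iid (ℤ × ℤ) μ {u | (fun v : ℤ × ℤ => u (φ v.2 v.1, v.2)) ∈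
            {u : ℤ × ℤ → T | ¬ RectOK (Z G u) a b n m}} := rfl
      _ = iid (ℤ × ℤ) μ {u : ℤ × ℤ → T | ¬ RectOK (Z G u) a b n m} := h
      _ ≤ _ := hA.rect_le a b n m
  · rintro ⟨x, y⟩ hx ⟨x', y'⟩ hx' hxy
    simp only [Set.mem_ofPred_eq] at hx hx'
    simp only [Prod.mk.injEq] at hxy
    obtain ⟨h1, h2⟩ := hxy
    subst h2
    have := hφ.inj y x x' (by rw [abs_lt]; constructor <;> omega) h1
    rw [this]
  · intro u u' huu
    have hag : ∀ v ∈ bdry a b n m, Z G u v = Z G u' v := by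
      intro v hv
      refine Z_congr hA.win (fun k h1 _ => huu _ ?_)
      rw [abs_le] at h1
      simp only [Set.mem_ofPred_eq, Prod.fst_add]
      simp only [bdry, Finset.mem_union, Finset.mem_image, Finset.mem_range] at hv
      rcases hv with (⟨i, hi, rfl⟩ | ⟨i, hi, rfl⟩) | (⟨i, hi, rfl⟩ | ⟨i, hi, rfl⟩) <;>
        dsimp only <;> constructor <;> omega
    simp only [Set.mem_ofPred_eq]
    rw [rectOK_of_agree hag]

/-- The two bounding rows of the annulus carry the same winding, and the lower row is proper. -/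
def AnnOK (x : ℤ × ℤ → Fin 3) (N h : ℕ) : Prop :=
  Hs x 0 0 N = Hs x 0 h N ∧ ∀ i : ℕ, i < N → x (i, 0) ≠ x ((i + 1 : ℕ), 0)

theorem Approx.ann_le (hA : Approx μ G r δ) {φ : ℤ → ℤ → ℤ} {N A h : ℕ} (hφ : IsPlc φ N A)
    (hh : h + 2 * r < A) (hN : N ≤ 6 * h) :
    iid (ℤ × ℤ) μ {u | ¬ AnnOK (Z G (plc φ u)) N h} ≤ ((24 * (h + 1) : ℕ) : ℝ≥0∞) * δ := by
  have hsub : {u | ¬ AnnOK (Z G (plc φ u)) N h} ⊆
      ⋃ i ∈ Finset.range 6, {u | ¬ RectOK (Z G (plc φ u)) ((min (i * h) N : ℕ) : ℤ) 0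
        (min ((i + 1) * h) N - min (i * h) N) h} := by
    intro u hu
    by_contra hcon
    simp only [Set.mem_ofPred_eq, Set.mem_iUnion, not_not, not_exists, exists_prop, not_and,
      Finset.mem_range] at hcon
    apply hu
    refine annulus_glue _ N h hN hcon (fun j => ?_)
    refine hA.win _ _ (fun k _ _ => ?_)
    have := hφ.per k.1 (j + k.2)
    simp only [plc, Prod.snd_add, Prod.fst_add, zero_add]
    rw [add_comm (N : ℤ) k.1, this]
  refine (measure_mono hsub).trans ?_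
  refine (measure_biUnion_finset_le _ _).trans ?_
  have hb : ∀ i ∈ Finset.range 6, iid (ℤ × ℤ) μ {u | ¬ RectOK (Z G (plc φ u))
      ((min (i * h) N : ℕ) : ℤ) 0 (min ((i + 1) * h) N - min (i * h) N) h} ≤
        ((4 * (h + 1) : ℕ) : ℝ≥0∞) * δ := by
    intro i _
    have hle : min ((i + 1) * h) N - min (i * h) N ≤ h := by
      have : (i + 1) * h = i * h + h := by ring
      rw [this]
      omega
    refine (hA.plc_rect_le hφ _ _ _ _ (by omega)).trans ?_
    gcongr
    omega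
  refine (Finset.sum_le_card_nsmul _ _ _ hb).trans ?_
  rw [Finset.card_range, nsmul_eq_mul, ← mul_assoc]
  gcongr
  rw [← Nat.cast_mul]
  exact_mod_cast (by omega : 6 * (4 * (h + 1)) ≤ 24 * (h + 1))

/-- A variable which agrees with an independent bounded integer variable with high probability is
nearly constant. -/
theorem conc {Ω : Type*} [MeasurableSpace Ω] (P : Measure Ω) [IsProbabilityMeasure P]
    (f g : Ω → ℤ) (hf : Measurable f) (hg : Measurable g) (N : ℕ) (hgN : ∀ w, |g w| ≤ N)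
    (hind : ∀ c : ℤ, P ({w | f w ≠ c} ∩ {w | g w = c}) = P {w | f w ≠ c} * P {w | g w = c}) :
    ∃ c : ℤ, P {w | f w ≠ c} ≤ P {w | f w ≠ g w} := by
  obtain ⟨c, _, hc⟩ := Finset.exists_min_image (Finset.Icc (-(N : ℤ)) N)
    (fun c => P {w | f w ≠ c}) ⟨0, by simp⟩
  refine ⟨c, ?_⟩
  have hmf : ∀ c : ℤ, MeasurableSet {w | f w ≠ c} :=
    fun c => (measurableSet_eq_fun hf measurable_const).compl
  have hmg : ∀ c : ℤ, MeasurableSet {w | g w = c} :=
    fun c => measurableSet_eq_fun hg measurable_const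
  have hdisj : Set.PairwiseDisjoint (Finset.Icc (-(N : ℤ)) N : Set ℤ) (fun c => {w | g w = c}) := by
    intro a _ b _ hab
    refine Set.disjoint_left.2 (fun w h1 h2 => hab ?_)
    exact h1.symm.trans h2
  have hcover : ⋃ c ∈ Finset.Icc (-(N : ℤ)) N, {w | g w = c} = Set.univ := by
    ext w
    have := hgN w
    rw [abs_le] at this
    simp only [Finset.mem_Icc, Set.mem_iUnion, Set.mem_ofPred_eq, exists_prop, Set.mem_univ,
      iff_true]
    exact ⟨g w, this, rfl⟩
  have hone : ∑ c ∈ Finset.Icc (-(N : ℤ)) N, P {w | g w = c} = 1 := by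
    rw [← measure_biUnion_finset hdisj (fun c _ => hmg c), hcover, measure_univ]
  have hdisj2 : Set.PairwiseDisjoint (Finset.Icc (-(N : ℤ)) N : Set ℤ)
      (fun c => {w | f w ≠ c} ∩ {w | g w = c}) := by
    intro a ha b hb hab
    exact (hdisj ha hb hab).mono Set.inter_subset_right Set.inter_subset_right
  calc P {w | f w ≠ c} = ∑ c' ∈ Finset.Icc (-(N : ℤ)) N, P {w | f w ≠ c} * P {w | g w = c'} := by
        rw [← Finset.mul_sum, hone, mul_one]
    _ ≤ ∑ c' ∈ Finset.Icc (-(N : ℤ)) N, P {w | f w ≠ c'} * P {w | g w = c'} := by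
        exact Finset.sum_le_sum (fun c' hc' => mul_le_mul' (hc c' hc') le_rfl)
    _ = ∑ c' ∈ Finset.Icc (-(N : ℤ)) N, P ({w | f w ≠ c'} ∩ {w | g w = c'}) := by
        refine Finset.sum_congr rfl (fun c' _ => (hind c').symm)
    _ = P (⋃ c' ∈ Finset.Icc (-(N : ℤ)) N, ({w | f w ≠ c'} ∩ {w | g w = c'})) := by
        rw [measure_biUnion_finset hdisj2 (fun c _ => (hmf c).inter (hmg c))]
    _ ≤ P {w | f w ≠ g w} := by
        refine measure_mono (fun w hw => ?_)
        simp only [Set.mem_iUnion, Set.mem_inter_iff, Set.mem_ofPred_eq, exists_prop] at hw ⊢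
        obtain ⟨c', _, h1, h2⟩ := hw
        rw [h2]
        exact h1

end Pool.Agent.N945.TC
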