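import Mathlib

/-! Finitary factor-of-i.i.d. 3-colourings of the lattice and the moments of their coding
radius. -/

namespace Pool.Agent.N945.TC

open MeasureTheory
open scoped ENNReal

/-- The vertices of the `d`-dimensional integer lattice. -/
abbrev Site (d : ℕ) := Fin d → ℤ

/-- The `l^1` norm of a lattice vector. -/
def norm1 {d : ℕ} (v : Site d) : ℕ := ∑ i, (v i).natAbs

/-- Proper colourings of the lattice with three colours: sites at `l^1` distance one get distinct
colours. -/
def IsProper {d : ℕ} (x : Site d → Fin 3) : Prop :=
  ∀ u v : Site d, norm1 (u - v) = 1 → x u ≠ x v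

/-- Translation of a field by the vector `a`. -/
def translate {d : ℕ} {S : Type*} (a : Site d) (y : Site d → S) : Site d → S := fun v => y (v + a)

/-- The law of a family of i.i.d. labels indexed by the sites, with one-site law `μ`. -/
noncomputable def iidLaw (d : ℕ) {T : Type*} [MeasurableSpace T] (μ : Measure T) :
    Measure (Site d → T) := Measure.infinitePi (fun _ : Site d => μ)

/-- The labels of `y` in the `l^1` ball of radius `r` around the origin determine the colour of
the origin. -/
def Determines {d : ℕ} {T : Type*} (F : (Site d → T) → Site d → Fin 3) (y : Site d → T)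
    (r : ℕ) : Prop :=
  ∀ y' : Site d → T, (∀ v : Site d, norm1 v ≤ r → y' v = y v) → F y' 0 = F y 0

/-- The coding radius: the least `r` such that the labels in the ball of radius `r` determine the
colour of the origin (`⊤` if there is none). -/
noncomputable def codingRadius {d : ℕ} {T : Type*} (F : (Site d → T) → Site d → Fin 3)
    (y : Site d → T) : ℕ∞ := ⨅ (r : ℕ) (_ : Determines F y r), (r : ℕ∞)

/-- `F` is a finitary factor of the i.i.d. labels with law `μ`, whose value is almost surely a
proper 3-colouring. -/
structure IsFfiid3Coloring {d : ℕ} {T : Type*} [MeasurableSpace T] (μ : Measure T)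
    (F : (Site d → T) → Site d → Fin 3) : Prop where
  measurable : Measurable F
  translate_eq : ∀ (a : Site d) (y : Site d → T), F (translate a y) = translate a (F y)
  finitary : ∀ᵐ y ∂(iidLaw d μ), codingRadius F y ≠ ⊤
  proper : ∀ᵐ y ∂(iidLaw d μ), IsProper (F y)

/-- The `α`-moment of the coding radius. -/
noncomputable def radiusMoment {d : ℕ} {T : Type*} [MeasurableSpace T] (μ : Measure T)
    (F : (Site d → T) → Site d → Fin 3) (α : ℝ) : ℝ≥0∞ :=
  ∫⁻ y, ((codingRadius F y : ℕ∞) : ℝ≥0∞) ^ α ∂(iidLaw d μ)

/-- The exponents `α > 0` for which some ffiid 3-colouring, driven by labels uniform on `[0,1]`,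
has a coding radius with finite `α`-moment. -/
def admissible (d : ℕ) : Set ℝ :=
  {α | 0 < α ∧ ∃ F : (Site d → unitInterval) → Site d → Fin 3,
    IsFfiid3Coloring volume F ∧ radiusMoment volume F α < ⊤}

/-- The critical exponent. -/
noncomputable def alphaStar (d : ℕ) : ℝ := sSup (admissible d)

end Pool.Agent.N945.TC
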