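import Pool.Agent.N945.TC.Defs

/-! Distances and parity on the lattice. -/

namespace Pool.Agent.N945.TC

variable {d : ℕ}

/-- The `l^∞` distance. -/
def nd (v w : Site d) : ℕ := Finset.univ.sup (fun i => (v i - w i).natAbs)

theorem nd_le_iff {v w : Site d} {r : ℕ} : nd v w ≤ r ↔ ∀ i, (v i - w i).natAbs ≤ r := by
  simp [nd, Finset.sup_le_iff]

theorem nd_coord (v w : Site d) (i : Fin d) : (v i - w i).natAbs ≤ nd v w :=
  nd_le_iff.1 le_rfl i

@[simp] theorem nd_self (v : Site d) : nd v v = 0 := by
  have : nd v v ≤ 0 := nd_le_iff.2 (fun i => by simp)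
  omega

theorem nd_comm (v w : Site d) : nd v w = nd w v := by
  apply le_antisymm
  · refine nd_le_iff.2 (fun i => ?_)
    have := nd_coord w v i
    omega
  · refine nd_le_iff.2 (fun i => ?_)
    have := nd_coord v w i
    omega

theorem nd_tri (u v w : Site d) : nd u w ≤ nd u v + nd v w := by
  refine nd_le_iff.2 (fun i => ?_)
  have h1 := nd_coord u v i
  have h2 := nd_coord v w i
  omega

theorem nd_add_right (a v w : Site d) : nd (v + a) (w + a) = nd v w := by
  unfold nd
  congr 1
  funext i
  simp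

/-- The `l^1` distance. -/
def n1 (v w : Site d) : ℕ := norm1 (v - w)

theorem n1_eq (v w : Site d) : n1 v w = ∑ i, (v i - w i).natAbs := rfl

theorem n1_comm (v w : Site d) : n1 v w = n1 w v := by
  rw [n1_eq, n1_eq]
  refine Finset.sum_congr rfl (fun i _ => ?_)
  omega

theorem n1_tri (u v w : Site d) : n1 u w ≤ n1 u v + n1 v w := by
  rw [n1_eq, n1_eq, n1_eq, ← Finset.sum_add_distrib]
  refine Finset.sum_le_sum (fun i _ => ?_)
  omega

theorem nd_le_n1 (v w : Site d) : nd v w ≤ n1 v w := by
  refine nd_le_iff.2 (fun i => ?_)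
  rw [n1_eq]
  exact Finset.single_le_sum (f := fun i => (v i - w i).natAbs) (fun _ _ => Nat.zero_le _)
    (Finset.mem_univ i)

theorem n1_add_right (a v w : Site d) : n1 (v + a) (w + a) = n1 v w := by
  rw [n1_eq, n1_eq]
  refine Finset.sum_congr rfl (fun i _ => ?_)
  simp

theorem n1_self (v : Site d) : n1 v v = 0 := by simp [n1_eq]

/-- Parity of a site. -/
def par (v : Site d) : ZMod 2 := ((∑ i, v i : ℤ) : ZMod 2)

theorem par_sub (v w : Site d) : par (v - w) = par v - par w := by
  unfold par
  simp [Finset.sum_sub_distrib]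

theorem par_add (v w : Site d) : par (v + w) = par v + par w := by
  unfold par
  simp [Finset.sum_add_distrib]

theorem natAbs_mod2 (a : ℤ) : ((a.natAbs : ℕ) : ZMod 2) = (a : ZMod 2) := by
  have h : ∀ x : ZMod 2, -x = x := by decide
  rcases Int.natAbs_eq a with h1 | h1
  · conv_rhs => rw [h1]
    simp
  · conv_rhs => rw [h1]
    simp [h]

theorem n1_mod2 (v w : Site d) : ((n1 v w : ℕ) : ZMod 2) = par v - par w := by
  rw [← par_sub, n1_eq]
  unfold par
  push_cast
  refine Finset.sum_congr rfl (fun i _ => ?_)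
  rw [natAbs_mod2]
  simp

theorem par_adj {v w : Site d} (h : n1 v w = 1) : par v = par w + 1 := by
  have := n1_mod2 v w
  rw [h] at this
  have h2 : par v = (par v - par w) + par w := by ring
  rw [h2, ← this]
  push_cast
  ring

end Pool.Agent.N945.TC
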