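import Pool.Agent.N945.TC.Cyl

/-! Cylinder placements, glued placements, and the winding numbers of cylinders. -/

namespace Pool.Agent.N945.TC

open MeasureTheory ProbabilityTheory
open scoped ENNReal

/-- The placement of the strip on a cylinder of circumference `N`. -/
def cyl (r N : ℕ) : ℤ → ℤ → ℤ := fun _ x => (x + r) % N - r

/-- Two cylinders glued along a vertical seam near the bottom row. -/
def glue (r N1 N2 : ℕ) : ℤ → ℤ → ℤ := fun y x =>
  if |y| ≤ (r : ℤ) ∧ (N1 : ℤ) - r ≤ (x + r) % ((N1 + N2 : ℕ) : ℤ) - r ∧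
      (x + r) % ((N1 + N2 : ℕ) : ℤ) - r ≤ N1 + r
  then (x + r) % ((N1 + N2 : ℕ) : ℤ) - r - N1
  else (x + r) % ((N1 + N2 : ℕ) : ℤ) - r

theorem emod_facts (N : ℕ) (hN : 0 < N) (z z' : ℤ) :
    ∃ M : ℤ, z - z' = M + (z % N - z' % N) ∧ (M = 0 ∨ (N : ℤ) ≤ M ∨ M ≤ -(N : ℤ)) ∧
      0 ≤ z % N ∧ z % N < N ∧ 0 ≤ z' % N ∧ z' % N < N := by
  have hN' : (0 : ℤ) < N := by exact_mod_cast hN
  refine ⟨N * (z / N - z' / N), ?_, ?_, Int.emod_nonneg _ hN'.ne', Int.emod_lt_of_pos _ hN',
    Int.emod_nonneg _ hN'.ne', Int.emod_lt_of_pos _ hN'⟩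
  · have h1 := Int.mul_ediv_add_emod z N
    have h2 := Int.mul_ediv_add_emod z' N
    linarith
  · set k := z / N - z' / N
    rcases lt_trichotomy k 0 with hk | hk | hk
    · right; right
      have : k ≤ -1 := by omega
      nlinarith
    · left; rw [hk]; ring
    · right; left
      have : 1 ≤ k := by omega
      nlinarith

theorem cyl_isPlc (r N A : ℕ) (hA : 0 < A) (hN : A ≤ N) : IsPlc (cyl r N) N A := by
  constructor
  · intro x y
    unfold cyl
    have : x + (N : ℤ) + r = x + r + N := by ring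
    rw [this, Int.add_emod_right]
  · intro y x x' hx h
    unfold cyl at h
    obtain ⟨M, h1, h2, h3⟩ := emod_facts N (by omega) (x + r) (x' + r)
    rw [abs_lt] at hx
    omega

theorem glue_isPlc (r N1 N2 A : ℕ) (hA : 0 < A) (h1 : A ≤ N1) (h2 : A ≤ N2) :
    IsPlc (glue r N1 N2) (N1 + N2) A := by
  constructor
  · intro x y
    unfold glue
    have : x + ((N1 + N2 : ℕ) : ℤ) + r = x + r + ((N1 + N2 : ℕ) : ℤ) := by ring
    rw [this, Int.add_emod_right]
  · intro y x x' hx h
    unfold glue at h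
    obtain ⟨M, h1, h2, h3⟩ := emod_facts (N1 + N2) (by omega) (x + r) (x' + r)
    rw [abs_lt] at hx
    split_ifs at h <;> omega

variable {T : Type*} [MeasurableSpace T]

/-- Sum of the increments of the block field along the bottom row of the cylinder. -/
def S0 (G : (ℤ × ℤ → T) → Fin 3) (r N : ℕ) (u : ℤ × ℤ → T) : ℤ := Hs (Z G (plc (cyl r N) u)) 0 0 N

/-- Sum of the increments of the block field along row `h` of the cylinder. -/
def Sh (G : (ℤ × ℤ → T) → Fin 3) (r N h : ℕ) (u : ℤ × ℤ → T) : ℤ :=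
  Hs (Z G (plc (cyl r N) u)) 0 h N

theorem emod_small {N : ℕ} {z : ℤ} (h0 : 0 ≤ z) (h1 : z < N) : z % N = z :=
  Int.emod_eq_of_lt h0 h1

theorem emod_wrap {N : ℕ} {z : ℤ} (h0 : (N : ℤ) ≤ z) (h1 : z < 2 * N) : z % N = z - N := by
  have h : (z - N + N) % (N : ℤ) = (z - N) % (N : ℤ) := Int.add_emod_right _ _
  rw [sub_add_cancel] at h
  rw [h]
  exact Int.emod_eq_of_lt (by omega) (by omega)

variable {G : (ℤ × ℤ → T) → Fin 3} {r : ℕ}

omit [MeasurableSpace T] in
/-- First part of the glued bottom row. -/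
theorem glue_first (hw : Win G r) (N1 N2 : ℕ) (h1 : 2 * r < N1) (h2 : 2 * r < N2)
    (u : ℤ × ℤ → T) : Hs (Z G (plc (glue r N1 N2) u)) 0 0 N1 = S0 G r N1 u := by
  unfold S0
  refine Hs_congr hw (fun x y hx hx' hy => ?_)
  simp only [plc, zero_add]
  have e : glue r N1 N2 y x = cyl r N1 y x := by
    unfold glue cyl
    have e1 : (x + r) % ((N1 + N2 : ℕ) : ℤ) = x + r := emod_small (by omega) (by push_cast; omega)
    rw [e1]
    by_cases hc : x < N1 - r
    · have e2 : (x + r) % (N1 : ℤ) = x + r := emod_small (by omega) (by omega)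
      rw [e2, if_neg (by omega)]
    · have e2 : (x + r) % (N1 : ℤ) = x + r - N1 := emod_wrap (by omega) (by omega)
      rw [e2, if_pos ⟨hy, by omega, by omega⟩]
      ring
  rw [e]

/-- The relabelling which carries the second cylinder to the glued strip. -/
def psi (r N1 : ℕ) : ℤ × ℤ → ℤ × ℤ := fun v => (if v.1 ≤ r then v.1 else v.1 + N1, v.2)

theorem psi_inj (r N1 : ℕ) : Function.Injective (psi r N1) := by
  rintro ⟨x, y⟩ ⟨x', y'⟩ h
  simp only [psi, Prod.mk.injEq] at h
  obtain ⟨h1, h2⟩ := h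
  have : x = x' := by split_ifs at h1 <;> omega
  rw [this, h2]

omit [MeasurableSpace T] in
/-- Second part of the glued bottom row. -/
theorem glue_second (hw : Win G r) (N1 N2 : ℕ) (h1 : 2 * r < N1) (h2 : 2 * r < N2)
    (u : ℤ × ℤ → T) : Hs (Z G (plc (glue r N1 N2) u)) N1 0 N2 =
      S0 G r N2 (fun v => u (psi r N1 v)) := by
  unfold S0
  refine Hs_congr hw (fun x y hx hx' hy => ?_)
  simp only [plc, zero_add, psi]
  have e : glue r N1 N2 y (N1 + x) =
      if cyl r N2 y x ≤ r then cyl r N2 y x else cyl r N2 y x + N1 := by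
    unfold glue cyl
    by_cases hc : x < N2 - r
    · have e1 : ((N1 : ℤ) + x + r) % ((N1 + N2 : ℕ) : ℤ) = N1 + x + r :=
        emod_small (by omega) (by push_cast; omega)
      have e2 : (x + r) % (N2 : ℤ) = x + r := emod_small (by omega) (by omega)
      rw [e1, e2]
      by_cases hc2 : x ≤ r
      · rw [if_pos ⟨hy, by omega, by omega⟩, if_pos (by omega)]; ring
      · rw [if_neg (by omega), if_neg (by omega)]; ring
    · have e1 : ((N1 : ℤ) + x + r) % ((N1 + N2 : ℕ) : ℤ) = N1 + x + r - ((N1 + N2 : ℕ) : ℤ) :=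
        emod_wrap (by push_cast; omega) (by push_cast; omega)
      have e2 : (x + r) % (N2 : ℤ) = x + r - N2 := emod_wrap (by omega) (by omega)
      rw [e1, e2]
      push_cast
      rw [if_neg (by omega), if_pos (by omega)]; ring
  rw [e]

omit [MeasurableSpace T] in
/-- The upper row of the glued strip is a cylinder row. -/
theorem glue_top (hw : Win G r) (N1 N2 h : ℕ) (hh : 2 * r < h) (u : ℤ × ℤ → T) :
    Hs (Z G (plc (glue r N1 N2) u)) 0 h (N1 + N2) = Sh G r (N1 + N2) h u := by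
  unfold Sh
  refine Hs_congr hw (fun x y hx hx' hy => ?_)
  simp only [plc, zero_add]
  have e : glue r N1 N2 (h + y) x = cyl r (N1 + N2) (h + y) x := by
    unfold glue cyl
    rw [if_neg]
    rintro ⟨h1, _⟩
    rw [abs_le] at h1 hy
    omega
  rw [e]

omit [MeasurableSpace T] in
theorem Hs_split (x : ℤ × ℤ → Fin 3) (b : ℤ) (N1 N2 : ℕ) :
    Hs x 0 b (N1 + N2) = Hs x 0 b N1 + Hs x N1 b N2 := by
  unfold Hs
  rw [Ssum_add]
  congr 2
  funext k
  push_cast
  ring_nf

end Pool.Agent.N945.TC
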