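import Mathlib

/-! Basic facts on i.i.d. fields: injective relabelling, independence of events that
depend on disjoint finite sets of labels. -/

namespace Pool.Agent.N945.TC

open MeasureTheory ProbabilityTheory

/-- The law of an i.i.d. field over the index set `ι` with one-site law `μ`. -/
noncomputable abbrev iid (ι : Type*) {T : Type*} [MeasurableSpace T] (μ : Measure T) :
    Measure (ι → T) := Measure.infinitePi (fun _ : ι => μ)

variable {ι κ : Type*} {T : Type*} [MeasurableSpace T]

theorem iid_map_inj (μ : Measure T) [IsProbabilityMeasure μ] (f : ι → κ)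
    (hf : Function.Injective f) :
    (iid κ μ).map (fun (u : κ → T) (i : ι) => u (f i)) = iid ι μ := by
  classical
  have hmeas : Measurable (fun (u : κ → T) (i : ι) => u (f i)) :=
    measurable_pi_lambda _ (fun i => measurable_pi_apply _)
  refine Measure.eq_infinitePi (fun _ : ι => μ) ?_
  intro s t ht
  have hset : MeasurableSet (Set.pi (s : Set ι) t) :=
    MeasurableSet.pi s.countable_toSet (fun i _ => ht i)
  rw [Measure.map_apply hmeas hset]
  -- the preimage is a cylinder over the image finset
  have hpre : (fun (u : κ → T) (i : ι) => u (f i)) ⁻¹' (Set.pi (s : Set ι) t)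
      = Set.pi ((s.image f : Finset κ) : Set κ)
          (fun k => ⋂ i ∈ s, if f i = k then t i else Set.univ) := by
    ext u
    simp only [Set.mem_preimage, Set.mem_pi, Finset.mem_coe, Finset.mem_image, Set.mem_iInter]
    constructor
    · rintro h k _ i hi
      by_cases hk : f i = k
      · rw [if_pos hk, ← hk]; exact h i hi
      · rw [if_neg hk]; exact Set.mem_univ _
    · intro h i hi
      have := h (f i) ⟨i, hi, rfl⟩ i hi
      rwa [if_pos rfl] at this
  rw [hpre, Measure.infinitePi_pi]
  · rw [Finset.prod_image (fun a _ b _ h => hf h)]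
    refine Finset.prod_congr rfl (fun i hi => ?_)
    congr 1
    ext x
    simp only [Set.mem_iInter]
    constructor
    · intro h
      have := h i hi
      rwa [if_pos rfl] at this
    · intro h j _
      by_cases hj : f j = f i
      · rw [if_pos hj, hf hj]; exact h
      · rw [if_neg hj]; exact Set.mem_univ _
  · intro k _
    refine MeasurableSet.biInter s.countable_toSet (fun i _ => ?_)
    by_cases hk : f i = k
    · rw [if_pos hk]; exact ht i
    · rw [if_neg hk]; exact MeasurableSet.univ

theorem nonempty_of_prob (μ : Measure T) [IsProbabilityMeasure μ] : Nonempty T :=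
  MeasureTheory.nonempty_of_isProbabilityMeasure μ

/-- Extension of a partial configuration by a constant. -/
noncomputable def extendBy (W : Set ι) (t0 : T) (w : W → T) : ι → T := by
  classical
  exact fun i => if h : i ∈ W then w ⟨i, h⟩ else t0

theorem measurable_extendBy (W : Set ι) (t0 : T) : Measurable (extendBy W t0 : (W → T) → (ι → T)) := by
  classical
  refine measurable_pi_lambda _ (fun i => ?_)
  by_cases h : i ∈ W
  · have : (fun w : W → T => extendBy W t0 w i) = fun w => w ⟨i, h⟩ := by
      funext w; simp [extendBy, h]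
    rw [this]; exact measurable_pi_apply _
  · have : (fun w : W → T => extendBy W t0 w i) = fun _ => t0 := by
      funext w; simp [extendBy, h]
    rw [this]; exact measurable_const

omit [MeasurableSpace T] in
theorem extendBy_mem {W : Set ι} {t0 : T} {w : W → T} {i : ι} (h : i ∈ W) :
    extendBy W t0 w i = w ⟨i, h⟩ := by simp [extendBy, h]

theorem iid_comp_injOn_aux (μ : Measure T) [IsProbabilityMeasure μ] {φ : ι → κ} {W : Set ι}
    (hinj : Set.InjOn φ W) {E : Set (ι → T)} (hE : MeasurableSet E) (t0 : T)
    (hdep : ∀ u u' : ι → T, (∀ i ∈ W, u i = u' i) → (u ∈ E ↔ u' ∈ E)) :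
    iid κ μ {u | (fun i => u (φ i)) ∈ E} = iid W μ ((extendBy W t0) ⁻¹' E) := by
  classical
  have hE' : MeasurableSet ((extendBy W t0) ⁻¹' E : Set (W → T)) := measurable_extendBy W t0 hE
  have hf : Function.Injective (fun i : W => φ i) := by
    intro a b h
    exact Subtype.ext (hinj a.2 b.2 h)
  rw [← iid_map_inj μ (fun i : W => φ i) hf, Measure.map_apply _ hE']
  · congr 1
    ext u
    simp only [Set.mem_ofPred_eq, Set.mem_preimage]
    refine hdep _ _ (fun i hi => ?_)
    rw [extendBy_mem hi]
  · exact measurable_pi_lambda _ (fun i => measurable_pi_apply _)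

/-- An event depending only on the labels in `W`, pulled back along a map which is injective
on `W`, keeps its probability. -/
theorem iid_comp_injOn (μ : Measure T) [IsProbabilityMeasure μ] {φ : ι → κ} {W : Set ι}
    (hinj : Set.InjOn φ W) {E : Set (ι → T)} (hE : MeasurableSet E)
    (hdep : ∀ u u' : ι → T, (∀ i ∈ W, u i = u' i) → (u ∈ E ↔ u' ∈ E)) :
    iid κ μ {u | (fun i => u (φ i)) ∈ E} = iid ι μ E := by
  obtain ⟨t0⟩ := nonempty_of_prob μ
  rw [iid_comp_injOn_aux μ hinj hE t0 hdep]
  have := iid_comp_injOn_aux μ (φ := (id : ι → ι)) (Set.injOn_id W) hE t0 hdep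
  rw [← this]
  rfl

/-- Events depending on disjoint finite sets of labels are independent. -/
theorem iid_indep (μ : Measure T) [IsProbabilityMeasure μ] {A B : Finset ι}
    (hAB : Disjoint A B) {E F : Set (ι → T)} (hE : MeasurableSet E) (hF : MeasurableSet F)
    (hdE : ∀ u u' : ι → T, (∀ i ∈ A, u i = u' i) → (u ∈ E ↔ u' ∈ E))
    (hdF : ∀ u u' : ι → T, (∀ i ∈ B, u i = u' i) → (u ∈ F ↔ u' ∈ F)) :
    iid ι μ (E ∩ F) = iid ι μ E * iid ι μ F := by
  classical
  obtain ⟨t0⟩ := nonempty_of_prob μ
  have hind : iIndepFun (fun (i : ι) (u : ι → T) => u i) (iid ι μ) := by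
    have := iIndepFun_infinitePi (P := fun _ : ι => μ) (X := fun _ : ι => (id : T → T))
      (fun _ => measurable_id)
    simpa using this
  have h2 := hind.indepFun_finset A B hAB (fun i => measurable_pi_apply i)
  have hE' : MeasurableSet ((extendBy (A : Set ι) t0) ⁻¹' E) := measurable_extendBy _ t0 hE
  have hF' : MeasurableSet ((extendBy (B : Set ι) t0) ⁻¹' F) := measurable_extendBy _ t0 hF
  have h3 := h2.measure_inter_preimage_eq_mul _ _ hE' hF'
  have e1 : (fun (u : ι → T) (i : A) => u i) ⁻¹' ((extendBy (A : Set ι) t0) ⁻¹' E) = E := by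
    ext u
    simp only [Set.mem_preimage]
    refine hdE _ _ (fun i hi => ?_)
    exact extendBy_mem (W := (A : Set ι)) hi
  have e2 : (fun (u : ι → T) (i : B) => u i) ⁻¹' ((extendBy (B : Set ι) t0) ⁻¹' F) = F := by
    ext u
    simp only [Set.mem_preimage]
    refine hdF _ _ (fun i hi => ?_)
    exact extendBy_mem (W := (B : Set ι)) hi
  rw [e1, e2] at h3
  exact h3

end Pool.Agent.N945.TC
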