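import Pool.Agent.N945.TC.Glue

/-! The winding-number obstruction: block approximations of proper 3-colourings have an error
probability which decays at most linearly in the block size. -/

namespace Pool.Agent.N945.TC

open MeasureTheory ProbabilityTheory
open scoped ENNReal

variable {T : Type*} [MeasurableSpace T] {μ : Measure T} [IsProbabilityMeasure μ]
  {G : (ℤ × ℤ → T) → Fin 3} {r : ℕ} {δ : ℝ≥0∞}

theorem measurable_ZP (hG : Measurable G) (φ : ℤ → ℤ → ℤ) (v : ℤ × ℤ) :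
    Measurable (fun u : ℤ × ℤ → T => Z G (plc φ u) v) :=
  (measurable_Z hG v).comp (measurable_plc φ)

theorem measurable_S0 (hG : Measurable G) (N : ℕ) : Measurable (S0 G r N) :=
  measurable_Hs (fun v => measurable_ZP hG _ v) _ _ _

theorem measurable_Sh (hG : Measurable G) (N h : ℕ) : Measurable (Sh G r N h) :=
  measurable_Hs (fun v => measurable_ZP hG _ v) _ _ _

omit [MeasurableSpace T] in
theorem S0_dep (hw : Win G r) (N : ℕ) (hN : 0 < N) (u u' : ℤ × ℤ → T)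
    (h : ∀ v ∈ Finset.Icc (-(r : ℤ)) (N - r - 1) ×ˢ Finset.Icc (-(r : ℤ)) r, u v = u' v) :
    S0 G r N u = S0 G r N u' := by
  unfold S0
  refine Hs_congr hw (fun x y _ _ hy => ?_)
  simp only [plc, zero_add, cyl]
  have hN' : (0 : ℤ) < N := by exact_mod_cast hN
  have h1 := Int.emod_nonneg (x + r) hN'.ne'
  have h2 := Int.emod_lt_of_pos (x + r) hN'
  refine h _ ?_
  rw [abs_le] at hy
  simp only [Finset.mem_product, Finset.mem_Icc]
  omega

omit [MeasurableSpace T] in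
theorem Sh_dep (hw : Win G r) (N hh : ℕ) (hN : 0 < N) (u u' : ℤ × ℤ → T)
    (h : ∀ v ∈ Finset.Icc (-(r : ℤ)) (N - r - 1) ×ˢ Finset.Icc ((hh : ℤ) - r) (hh + r),
      u v = u' v) :
    Sh G r N hh u = Sh G r N hh u' := by
  unfold Sh
  refine Hs_congr hw (fun x y _ _ hy => ?_)
  simp only [plc, zero_add, cyl]
  have hN' : (0 : ℤ) < N := by exact_mod_cast hN
  have h1 := Int.emod_nonneg (x + r) hN'.ne'
  have h2 := Int.emod_lt_of_pos (x + r) hN'
  refine h _ ?_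
  rw [abs_le] at hy
  simp only [Finset.mem_product, Finset.mem_Icc]
  omega

/-- The winding number of the cylinder of circumference `N` is nearly deterministic. -/
theorem exists_wind (hA : Approx μ G r δ) {N A h : ℕ} (hA0 : A ≤ N) (hN : N ≤ 6 * h)
    (hh : h + 2 * r < A) (hr : 2 * r < h) :
    ∃ c : ℤ, iid (ℤ × ℤ) μ {u | S0 G r N u ≠ c} ≤ ((24 * (h + 1) : ℕ) : ℝ≥0∞) * δ ∧
      iid (ℤ × ℤ) μ {u | Sh G r N h u ≠ c} ≤ 2 * (((24 * (h + 1) : ℕ) : ℝ≥0∞) * δ) := by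
  have hfg : iid (ℤ × ℤ) μ {u | S0 G r N u ≠ Sh G r N h u} ≤
      ((24 * (h + 1) : ℕ) : ℝ≥0∞) * δ := by
    refine le_trans (measure_mono (fun u hu => ?_))
      (hA.ann_le (cyl_isPlc r N A (by omega) hA0) hh hN)
    intro hann
    exact hu hann.1
  obtain ⟨c, hc⟩ := conc (iid (ℤ × ℤ) μ) (S0 G r N) (Sh G r N h) (measurable_S0 hA.meas N)
    (measurable_Sh hA.meas N h) N (fun u => Ssum_abs _ _) (fun c => by
      refine iid_indep μ (A := Finset.Icc (-(r : ℤ)) (N - r - 1) ×ˢ Finset.Icc (-(r : ℤ)) r)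
        (B := Finset.Icc (-(r : ℤ)) (N - r - 1) ×ˢ Finset.Icc ((h : ℤ) - r) (h + r)) ?_ ?_ ?_ ?_ ?_
      · rw [Finset.disjoint_left]
        rintro ⟨x, y⟩ h1 h2
        simp only [Finset.mem_product, Finset.mem_Icc] at h1 h2
        omega
      · exact (measurableSet_eq_fun (measurable_S0 hA.meas N) measurable_const).compl
      · exact measurableSet_eq_fun (measurable_Sh hA.meas N h) measurable_const
      · intro u u' huu
        simp only [Set.mem_ofPred_eq]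
        rw [S0_dep hA.win N (by omega) u u' huu]
      · intro u u' huu
        simp only [Set.mem_ofPred_eq]
        rw [Sh_dep hA.win N h (by omega) u u' huu])
  have hc0 : iid (ℤ × ℤ) μ {u | S0 G r N u ≠ c} ≤ ((24 * (h + 1) : ℕ) : ℝ≥0∞) * δ := hc.trans hfg
  refine ⟨c, hc0, ?_⟩
  have hsub : {u | Sh G r N h u ≠ c} ⊆
      {u | S0 G r N u ≠ c} ∪ {u | S0 G r N u ≠ Sh G r N h u} := by
    intro u hu
    by_contra hcon
    simp only [Set.mem_union, Set.mem_ofPred_eq, not_or, not_not] at hcon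
    exact hu (hcon.2 ▸ hcon.1)
  refine (measure_mono hsub).trans ((measure_union_le _ _).trans ?_)
  rw [two_mul]
  exact add_le_add hc0 hfg

/-- A point outside of a union of five small events. -/
theorem exists_good {Ω : Type*} [MeasurableSpace Ω] (P : Measure Ω) [IsProbabilityMeasure P]
    (B1 B2 B3 B4 : Set Ω) (κ : ℝ≥0∞) (h1 : P B1 ≤ κ) (h2 : P B2 ≤ κ) (h3 : P B3 ≤ 2 * κ)
    (h4 : P B4 ≤ κ) (hκ : 5 * κ < 1) : ∃ w, w ∉ B1 ∧ w ∉ B2 ∧ w ∉ B3 ∧ w ∉ B4 := by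
  by_contra hcon
  push Not at hcon
  have hcov : (B1 ∪ B2) ∪ (B3 ∪ B4) = Set.univ := by
    ext w
    simp only [Set.mem_union, Set.mem_univ, iff_true]
    by_contra hw
    push Not at hw
    exact hw.2.2 (hcon w hw.1.1 hw.1.2 hw.2.1)
  have h5 : P ((B1 ∪ B2) ∪ (B3 ∪ B4)) ≤ (κ + κ) + (2 * κ + κ) :=
    (measure_union_le _ _).trans (add_le_add ((measure_union_le _ _).trans (add_le_add h1 h2))
      ((measure_union_le _ _).trans (add_le_add h3 h4)))
  rw [hcov, measure_univ] at h5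
  have h6 : (κ + κ) + (2 * κ + κ) = 5 * κ := by ring
  rw [h6] at h5
  exact absurd hκ (not_lt.2 h5)

/-- The winding numbers are additive. -/
theorem wind_add (hA : Approx μ G r δ) {N1 N2 A h : ℕ} (hA1 : A ≤ N1) (hA2 : A ≤ N2)
    (hN : N1 + N2 ≤ 6 * h) (hh : h + 2 * r < A) (hr : 2 * r < h)
    (hκ : 5 * (((24 * (h + 1) : ℕ) : ℝ≥0∞) * δ) < 1) {c1 c2 c : ℤ}
    (hc1 : iid (ℤ × ℤ) μ {u | S0 G r N1 u ≠ c1} ≤ ((24 * (h + 1) : ℕ) : ℝ≥0∞) * δ)
    (hc2 : iid (ℤ × ℤ) μ {u | S0 G r N2 u ≠ c2} ≤ ((24 * (h + 1) : ℕ) : ℝ≥0∞) * δ)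
    (hc : iid (ℤ × ℤ) μ {u | Sh G r (N1 + N2) h u ≠ c} ≤
      2 * (((24 * (h + 1) : ℕ) : ℝ≥0∞) * δ)) : c = c1 + c2 := by
  have hc2' : iid (ℤ × ℤ) μ {u | S0 G r N2 (fun v => u (psi r N1 v)) ≠ c2} ≤
      ((24 * (h + 1) : ℕ) : ℝ≥0∞) * δ := by
    have := iid_comp_injOn (κ := ℤ × ℤ) μ (φ := psi r N1) (W := Set.univ)
      ((psi_inj r N1).injOn) (E := {u | S0 G r N2 u ≠ c2})
      (measurableSet_eq_fun (measurable_S0 hA.meas N2) measurable_const).compl
      (fun u u' h => by rw [funext (fun i => h i (Set.mem_univ i))])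
    calc _ = iid (ℤ × ℤ) μ {u | (fun v => u (psi r N1 v)) ∈ {u | S0 G r N2 u ≠ c2}} := rfl
      _ = _ := this
      _ ≤ _ := hc2
  have hann := hA.ann_le (glue_isPlc r N1 N2 A (by omega) hA1 hA2) hh hN
  obtain ⟨u, h1, h2, h3, h4⟩ := exists_good (iid (ℤ × ℤ) μ) _ _ _ _ _ hc1 hc2' hc hann hκ
  simp only [Set.mem_ofPred_eq, not_not] at h1 h2 h3 h4
  have e1 := glue_first hA.win N1 N2 (by omega) (by omega) u
  have e2 := glue_second hA.win N1 N2 (by omega) (by omega) u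
  have e3 := glue_top hA.win N1 N2 h hr u
  have e4 := h4.1
  rw [Hs_split, e1, e2, e3, h1, h2, h3] at e4
  exact e4.symm

/-- Parity, divisibility and size of the winding numbers. -/
theorem wind_props (hA : Approx μ G r δ) {N A h : ℕ} (hA0 : A ≤ N) (hN : N ≤ 6 * h)
    (hh : h + 2 * r < A)
    (hκ : 5 * (((24 * (h + 1) : ℕ) : ℝ≥0∞) * δ) < 1) {c : ℤ}
    (hc : iid (ℤ × ℤ) μ {u | S0 G r N u ≠ c} ≤ ((24 * (h + 1) : ℕ) : ℝ≥0∞) * δ) :
    (3 : ℤ) ∣ c ∧ |c| ≤ N ∧ c % 2 = (N : ℤ) % 2 := by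
  have hpl := cyl_isPlc r N A (by omega) hA0
  have hann := hA.ann_le hpl hh hN
  obtain ⟨u, h1, h2, -, -⟩ := exists_good (iid (ℤ × ℤ) μ) _ _ ∅ ∅ _ hc hann (by simp) (by simp) hκ
  simp only [Set.mem_ofPred_eq, not_not] at h1 h2
  have hper : Z G (plc (cyl r N) u) ((N : ℕ), 0) = Z G (plc (cyl r N) u) (0, 0) := by
    refine hA.win _ _ (fun k _ _ => ?_)
    have := hpl.per k.1 (0 + k.2)
    simp only [plc, Prod.snd_add, Prod.fst_add, zero_add] at this ⊢
    rw [add_comm (N : ℤ) k.1, this]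
  have hS : S0 G r N u = Ssum (fun i : ℕ => Z G (plc (cyl r N) u) (0 + (i : ℤ), 0)) N := rfl
  rw [← h1]
  refine ⟨?_, ?_, ?_⟩
  · rw [hS]
    apply Ssum_closed
    simpa using hper
  · rw [hS]
    exact Ssum_abs _ _
  · rw [hS]
    apply Ssum_parity
    intro i hi
    have := h2.2 i hi
    simpa using this

/-- **The obstruction.** -/
theorem Approx.lower (hA : Approx μ G r δ) : 1 ≤ ((240 * (r + 1) : ℕ) : ℝ≥0∞) * δ := by
  by_contra hcon
  push Not at hcon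
  set h : ℕ := 2 * r + 1 with hh
  set A : ℕ := 2 * h with hAdef
  have hκ : 5 * (((24 * (h + 1) : ℕ) : ℝ≥0∞) * δ) < 1 := by
    have : 5 * (((24 * (h + 1) : ℕ) : ℝ≥0∞) * δ) = ((240 * (r + 1) : ℕ) : ℝ≥0∞) * δ := by
      rw [← mul_assoc]
      congr 1
      have : 5 * (24 * (h + 1)) = 240 * (r + 1) := by omega
      rw [← this]
      push_cast
      ring
    rw [this]
    exact hcon
  have hex : ∀ N : ℕ, ∃ c : ℤ, A ≤ N → N ≤ 3 * A →
      (iid (ℤ × ℤ) μ {u | S0 G r N u ≠ c} ≤ ((24 * (h + 1) : ℕ) : ℝ≥0∞) * δ ∧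
      iid (ℤ × ℤ) μ {u | Sh G r N h u ≠ c} ≤ 2 * (((24 * (h + 1) : ℕ) : ℝ≥0∞) * δ)) := by
    intro N
    by_cases hN : A ≤ N ∧ N ≤ 3 * A
    · obtain ⟨c, hc⟩ := exists_wind hA hN.1 (by omega) (by omega) (by omega) (h := h)
      exact ⟨c, fun _ _ => hc⟩
    · exact ⟨0, fun h1 h2 => absurd ⟨h1, h2⟩ hN⟩
  choose c hc using hex
  have hadd : ∀ N1 N2 : ℕ, A ≤ N1 → A ≤ N2 → N1 + N2 ≤ 3 * A → c (N1 + N2) = c N1 + c N2 := by
    intro N1 N2 h1 h2 h3
    exact wind_add hA h1 h2 (by omega) (by omega) (by omega) hκ (hc N1 h1 (by omega)).1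
      (hc N2 h2 (by omega)).1 (hc (N1 + N2) (by omega) h3).2
  have hprop : ∀ N : ℕ, A ≤ N → N ≤ 3 * A →
      (3 : ℤ) ∣ c N ∧ |c N| ≤ N ∧ c N % 2 = (N : ℤ) % 2 := by
    intro N h1 h2
    exact wind_props hA h1 (by omega) (by omega) hκ (hc N h1 h2).1
  have hlin : ∀ j : ℕ, j ≤ A → c (A + j) = c A + j * (c (A + 1) - c A) := by
    intro j
    induction j with
    | zero => intro _; simp
    | succ j ih =>
      intro hj
      have h1 := hadd (A + (j + 1)) A (by omega) le_rfl (by omega)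
      have h2 := hadd (A + j) (A + 1) (by omega) (by omega) (by omega)
      have h3 : A + (j + 1) + A = A + j + (A + 1) := by omega
      rw [h3] at h1
      have h4 := ih (by omega)
      push_cast
      linarith
  have h1 := hlin A le_rfl
  have h2 := hadd A A le_rfl le_rfl (by omega)
  have hp1 := hprop A le_rfl (by omega)
  have hp2 := hprop (A + 1) (by omega) (by omega)
  have hA1 : 1 ≤ (A : ℤ) := by omega
  set s := c (A + 1) - c A with hs
  have h3 : c A = A * s := by linarith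
  have hs3 : (3 : ℤ) ∣ s := by
    rw [hs]
    exact dvd_sub hp2.1 hp1.1
  have hs1 : |s| ≤ 1 := by
    have := hp1.2.1
    rw [h3, abs_mul, abs_of_nonneg (by positivity : (0 : ℤ) ≤ (A : ℤ))] at this
    by_contra hlt
    push Not at hlt
    nlinarith
  have hs0 : s = 0 := by
    rw [abs_le] at hs1
    omega
  have h4 : c A = 0 := by rw [h3, hs0, mul_zero]
  have h5 : c (A + 1) = 0 := by linarith
  have h6 := hp1.2.2
  have h7 := hp2.2.2
  rw [h4] at h6
  rw [h5] at h7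
  push_cast at h7
  omega

end Pool.Agent.N945.TC
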