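import Pool.Agent.N945.TC.Upper

/-! The factor map, and the critical moment exponent. -/

namespace Pool.Agent.N945.TC

open MeasureTheory ProbabilityTheory Filter
open scoped ENNReal unitInterval Topology

variable {d : ℕ} {M : ℕ}

/-- The factor map. -/
noncomputable def fmap (d M : ℕ) (Φ : I → (ℕ × Bool → I)) (y : Site d → I) : Site d → Fin 3 :=
  colour M M (own M M (lab Φ y))

/-- Stage `k` colours the origin. -/
def Col (M : ℕ) (Φ : I → (ℕ × Bool → I)) (k : ℕ) (y : Site d → I) : Prop :=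
  run M M (own M M (lab Φ y)) k 0 ≠ none

theorem measurable_fmap (hM : 19 ≤ M) {Φ : I → (ℕ × Bool → I)} (hΦ : Measurable Φ) :
    Measurable (fmap d M Φ) :=
  measurable_pi_lambda _ (fun v => (measurable_colour (by omega) v).comp (measurable_lab hΦ))

theorem own_lab_translate (Φ : I → (ℕ × Bool → I)) (a : Site d) (y : Site d → I) :
    own M M (lab Φ (translate a y)) = fun k => trO a (own M M (lab Φ y) k) := by
  rw [lab_translate]
  funext k
  exact own_tr (lab Φ y) a k

theorem fmap_translate (Φ : I → (ℕ × Bool → I)) (a : Site d) (y : Site d → I) :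
    fmap d M Φ (translate a y) = translate a (fmap d M Φ y) := by
  funext v
  unfold fmap translate
  have h := own_lab_translate (M := M) Φ a y
  unfold translate at h
  rw [h]
  exact colour_tr (goodO_own _) a v

theorem nd_le_norm1 (v : Site d) : nd v 0 ≤ norm1 v := by
  have := nd_le_n1 v 0
  unfold n1 at this
  rwa [sub_zero] at this

theorem norm1_le_nd (v : Site d) : norm1 v ≤ d * nd v 0 := by
  unfold norm1
  calc ∑ i, (v i).natAbs ≤ ∑ _i : Fin d, nd v 0 := by
        refine Finset.sum_le_sum (fun i _ => ?_)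
        have := nd_coord v 0 i
        simpa using this
    _ = d * nd v 0 := by simp

theorem determines_of_col (hM : 19 ≤ M) (Φ : I → (ℕ × Bool → I)) {k : ℕ} {y : Site d → I}
    (h : Col M Φ k y) : Determines (fmap d M Φ) y (rad d M k) := by
  intro y' hy'
  have e : run M M (own M M (lab Φ y')) k 0 = run M M (own M M (lab Φ y)) k 0 := by
    refine unc_dep hM k _ _ (fun i hi => ?_)
    unfold wind at hi
    rw [Finset.mem_product, mem_box] at hi
    unfold lab
    rw [hy' i.1]
    unfold rad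
    exact (norm1_le_nd i.1).trans (Nat.mul_le_mul_left _ hi.1)
  obtain ⟨a, ha⟩ := Option.ne_none_iff_exists'.1 h
  show colour M M (own M M (lab Φ y')) 0 = colour M M (own M M (lab Φ y)) 0
  rw [colour_of_some ha, colour_of_some (e.trans ha)]

theorem codingRadius_le_of_col (hM : 19 ≤ M) (Φ : I → (ℕ × Bool → I)) {k : ℕ} {y : Site d → I}
    (h : Col M Φ k y) : codingRadius (fmap d M Φ) y ≤ (rad d M k : ℕ) :=
  iInf₂_le _ (determines_of_col hM Φ h)

theorem ae_col (hM : 19 ≤ M) (hθ : theta d M < 1) {Φ : I → (ℕ × Bool → I)} (hΦ : Measurable Φ)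
    (hlaw : (volume : Measure I).map Φ = iid (ℕ × Bool) (volume : Measure I)) :
    ∀ᵐ y ∂(iidLaw d (volume : Measure I)), ∃ k, Col M Φ k y := by
  have h := ae_coloured (d := d) hM hθ
  rw [← law_lab hΦ hlaw] at h
  exact ae_of_ae_map (measurable_lab hΦ).aemeasurable h

theorem ae_proper (hM : 19 ≤ M) (hθ : theta d M < 1) {Φ : I → (ℕ × Bool → I)} (hΦ : Measurable Φ)
    (hlaw : (volume : Measure I).map Φ = iid (ℕ × Bool) (volume : Measure I)) :
    ∀ᵐ y ∂(iidLaw d (volume : Measure I)), IsProper (fmap d M Φ y) := by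
  have h := ae_col (d := d) hM hθ hΦ hlaw
  have h2 : ∀ v : Site d, ∀ᵐ y ∂(iidLaw d (volume : Measure I)), ∃ k, Col M Φ k (translate v y) := by
    intro v
    rw [← law_translate (volume : Measure I) v] at h
    exact ae_of_ae_map (measurable_translate v).aemeasurable h
  filter_upwards [ae_all_iff.2 h2] with y hy
  refine colour_proper (goodO_own _) (fun v => ?_)
  obtain ⟨k, hk⟩ := hy v
  refine ⟨k, ?_⟩
  unfold Col at hk
  rw [own_lab_translate, run_tr (goodO_own _), zero_add] at hk
  exact hk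

/-- A measurable function which dominates the powers of the coding radius. -/
noncomputable def bound (d M : ℕ) (α : ℝ) (ω : Idx d → I) : ℝ≥0∞ :=
  ∑' k : ℕ, (Unc M k).indicator (fun _ => ((rad d M (k + 1) : ℕ) : ℝ≥0∞) ^ α) ω

theorem measurableSet_unc (hM : 19 ≤ M) (k : ℕ) : MeasurableSet (Unc M k : Set (Idx d → I)) :=
  measurableSet_run (by omega) k 0 none

theorem lintegral_bound (hM : 19 ≤ M) (α : ℝ) :
    ∫⁻ ω, bound d M α ω ∂(iid (Idx d) (volume : Measure I)) =
      ∑' k : ℕ, ((rad d M (k + 1) : ℕ) : ℝ≥0∞) ^ α *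
        iid (Idx d) (volume : Measure I) (Unc M k) := by
  unfold bound
  rw [lintegral_tsum (fun k => (measurable_const.indicator (measurableSet_unc hM k)).aemeasurable)]
  refine tsum_congr (fun k => ?_)
  rw [lintegral_indicator_const (measurableSet_unc hM k)]

theorem measurable_bound (hM : 19 ≤ M) (α : ℝ) : Measurable (bound d M α) := by
  unfold bound
  exact Measurable.tsum (fun k => measurable_const.indicator (measurableSet_unc hM k))

theorem codingRadius_le_bound (hM : 19 ≤ M) {α : ℝ} (hα : 0 < α) (Φ : I → (ℕ × Bool → I))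
    {y : Site d → I} (h : ∃ k, Col M Φ k y) :
    ((codingRadius (fmap d M Φ) y : ℕ∞) : ℝ≥0∞) ^ α ≤ bound d M α (lab Φ y) := by
  classical
  have hk := Nat.find_spec h
  have hmin : ∀ j < Nat.find h, ¬ Col M Φ j y := fun j hj => Nat.find_min h hj
  set k := Nat.find h with hkdef
  have hk0 : k ≠ 0 := by
    intro h0
    rw [h0] at hk
    exact hk rfl
  obtain ⟨j, hj⟩ := Nat.exists_eq_succ_of_ne_zero hk0
  have hunc : lab Φ y ∈ Unc M j := by
    have := hmin j (by omega)
    unfold Col at this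
    push Not at this
    exact this
  have h1 : ((codingRadius (fmap d M Φ) y : ℕ∞) : ℝ≥0∞) ≤ ((rad d M (j + 1) : ℕ) : ℝ≥0∞) := by
    have h2 := codingRadius_le_of_col hM Φ hk
    rw [hj] at h2
    have h3 : ((codingRadius (fmap d M Φ) y : ℕ∞) : ℝ≥0∞) ≤
        (((rad d M (j + 1) : ℕ) : ℕ∞) : ℝ≥0∞) := by exact_mod_cast h2
    simpa using h3
  calc ((codingRadius (fmap d M Φ) y : ℕ∞) : ℝ≥0∞) ^ α
      ≤ ((rad d M (j + 1) : ℕ) : ℝ≥0∞) ^ α := ENNReal.rpow_le_rpow h1 hα.le
    _ = (Unc M j).indicator (fun _ => ((rad d M (j + 1) : ℕ) : ℝ≥0∞) ^ α) (lab Φ y) := by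
        rw [Set.indicator_of_mem hunc]
    _ ≤ bound d M α (lab Φ y) := ENNReal.le_tsum (f := fun k : ℕ => (Unc M k).indicator
        (fun _ => ((rad d M (k + 1) : ℕ) : ℝ≥0∞) ^ α) (lab Φ y)) j

/-- Existence: for every `α < 1` there is an ffiid 3-colouring of `ℤ^d` whose coding radius has
finite `α`-moment, with a measurable dominating variable. -/
theorem exists_colouring (d : ℕ) {α : ℝ} (hα : 0 < α) (hα1 : α < 1) :
    ∃ F : (Site d → I) → Site d → Fin 3, IsFfiid3Coloring (volume : Measure I) F ∧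
      ∃ K : (Site d → I) → ℝ≥0∞, Measurable K ∧
        (∀ᵐ y ∂(iidLaw d (volume : Measure I)),
          ((codingRadius F y : ℕ∞) : ℝ≥0∞) ^ α ≤ K y) ∧
        ∫⁻ y, K y ∂(iidLaw d (volume : Measure I)) < ⊤ := by
  obtain ⟨M, hM, hθ⟩ := exists_scale d hα1
  obtain ⟨Φ, hΦ, hlaw⟩ := Measure.exists_measurable_map_eq (iid (ℕ × Bool) (volume : Measure I))
  have hθ1 : theta d M < 1 := by
    refine lt_of_le_of_lt ?_ hθ
    have h1 : (1 : ℝ≥0∞) ≤ ENNReal.ofReal ((M : ℝ) ^ α) := by
      rw [ENNReal.one_le_ofReal]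
      exact Real.one_le_rpow (by exact_mod_cast (by omega : 1 ≤ M)) hα.le
    calc theta d M = theta d M * 1 := (mul_one _).symm
      _ ≤ _ := mul_le_mul' le_rfl h1
  have hcol := ae_col (d := d) hM hθ1 hΦ hlaw
  refine ⟨fmap d M Φ, ⟨measurable_fmap hM hΦ, fmap_translate Φ, ?_, ae_proper hM hθ1 hΦ hlaw⟩,
    fun y => bound d M α (lab Φ y), (measurable_bound hM α).comp (measurable_lab hΦ), ?_, ?_⟩
  · filter_upwards [hcol] with y hy
    obtain ⟨k, hk⟩ := hy
    exact ne_top_of_le_ne_top (by simp) (codingRadius_le_of_col hM Φ hk)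
  · filter_upwards [hcol] with y hy
    exact codingRadius_le_bound hM hα Φ hy
  · have h1 := lintegral_map (μ := iidLaw d (volume : Measure I)) (measurable_bound hM α)
      (measurable_lab (d := d) hΦ)
    rw [← h1, law_lab hΦ hlaw, lintegral_bound hM]
    exact sum_finite hM hα hθ

theorem admissible_eq {d : ℕ} (hd : 2 ≤ d) : admissible d = Set.Ioo 0 1 := by
  ext α
  constructor
  · rintro ⟨h0, F, hF, hm⟩
    refine ⟨h0, ?_⟩
    by_contra h1
    push Not at h1
    rw [radiusMoment_top hd _ hF h1] at hm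
    exact lt_irrefl _ hm
  · rintro ⟨h0, h1⟩
    obtain ⟨F, hF, K, _, hK, hfin⟩ := exists_colouring d h0 h1
    refine ⟨h0, F, hF, lt_of_le_of_lt ?_ hfin⟩
    unfold radiusMoment
    exact lintegral_mono_ae hK

theorem alphaStar_eq {d : ℕ} (hd : 2 ≤ d) : alphaStar d = 1 := by
  unfold alphaStar
  rw [admissible_eq hd]
  exact csSup_Ioo zero_lt_one

end Pool.Agent.N945.TC
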