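import Pool.Agent.N945.TC.Run
import Pool.Agent.N945.TC.Inj

/-! The owner relation built from the labels. -/

namespace Pool.Agent.N945.TC

open MeasureTheory
open scoped unitInterval

variable {d : ℕ}

/-- Index set of the auxiliary labels. -/
abbrev Idx (d : ℕ) := Site d × ℕ × Bool

/-- The centre `c` reaches the site `w` at level `k`. -/
def reach (B M : ℕ) (ω : Idx d → I) (k : ℕ) (c w : Site d) : Prop :=
  (nd c w : ℝ) ≤ Ls B M k * (1 + (ω (c, k, true) : ℝ))

/-- The centre `c` owns the site `w` at level `k`: it reaches `w`, and its clock is smaller than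
the clock of every other centre which reaches `w`. -/
def own (B M : ℕ) (ω : Idx d → I) (k : ℕ) (c w : Site d) : Prop :=
  reach B M ω k c w ∧ ∀ c', c' ≠ c → reach B M ω k c' w → ω (c, k, false) < ω (c', k, false)

variable {B M : ℕ}

theorem reach_le {ω : Idx d → I} {k : ℕ} {c w : Site d} (h : reach B M ω k c w) :
    nd c w ≤ 2 * Ls B M k := by
  unfold reach at h
  have h1 : (ω (c, k, true) : ℝ) ≤ 1 := (ω (c, k, true)).2.2
  have h2 : (0 : ℝ) ≤ (Ls B M k : ℝ) := Nat.cast_nonneg _
  have h3 : (nd c w : ℝ) ≤ ((2 * Ls B M k : ℕ) : ℝ) := by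
    push_cast
    nlinarith
  exact_mod_cast h3

theorem goodO_own (ω : Idx d → I) : GoodO B M (own B M ω) := by
  constructor
  · intro k c c' v h h'
    by_contra hne
    have h1 := h.2 c' (Ne.symm hne) h'.1
    have h2 := h'.2 c hne h.1
    exact lt_asymm h1 h2
  · intro k c v h
    exact reach_le h.1

theorem reach_congr {ω ω' : Idx d → I} {k : ℕ} {c w : Site d}
    (h : nd c w ≤ 2 * Ls B M k → ω (c, k, true) = ω' (c, k, true)) :
    reach B M ω k c w ↔ reach B M ω' k c w := by
  by_cases hc : nd c w ≤ 2 * Ls B M k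
  · unfold reach
    rw [h hc]
  · constructor
    · intro h'; exact absurd (reach_le h') hc
    · intro h'; exact absurd (reach_le h') hc

theorem own_congr {ω ω' : Idx d → I} {k : ℕ} {c w : Site d}
    (h : ∀ c' b, nd c' w ≤ 2 * Ls B M k → ω (c', k, b) = ω' (c', k, b)) :
    own B M ω k c w ↔ own B M ω' k c w := by
  have hr : ∀ c', reach B M ω k c' w ↔ reach B M ω' k c' w :=
    fun c' => reach_congr (fun hc => h c' true hc)
  constructor
  · rintro ⟨h1, h2⟩
    refine ⟨(hr c).1 h1, fun c' hne hc' => ?_⟩
    have := h2 c' hne ((hr c').2 hc')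
    rw [h c false (reach_le h1), h c' false (reach_le hc')] at this
    exact this
  · rintro ⟨h1, h2⟩
    refine ⟨(hr c).2 h1, fun c' hne hc' => ?_⟩
    have := h2 c' hne ((hr c').1 hc')
    rw [← h c false (reach_le h1), ← h c' false (reach_le hc')] at this
    exact this

theorem Ls_mono (hM : 1 ≤ M) {j k : ℕ} (h : j ≤ k) : Ls B M j ≤ Ls B M k :=
  Nat.mul_le_mul_left _ (Nat.pow_le_pow_right hM h)

/-- Stage `k` at the site `v` only depends on the labels of level `< k` near `v`. -/
theorem run_own_local (hM : 1 ≤ M) {ω ω' : Idx d → I} (k : ℕ) (v : Site d)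
    (h : ∀ c, ∀ j < k, ∀ b, nd v c ≤ Rs B M k + 2 * Ls B M k → ω (c, j, b) = ω' (c, j, b)) :
    run B M (own B M ω) k v = run B M (own B M ω') k v := by
  refine run_local (goodO_own ω) (goodO_own ω') k v ?_
  intro j hj c w hw
  refine own_congr (fun c' b hc' => h c' j hj b ?_)
  have h1 := nd_tri v w c'
  have h2 : Ls B M j ≤ Ls B M k := Ls_mono hM hj.le
  rw [nd_comm w c'] at h1
  omega

theorem own_tr (ω : Idx d → I) (a : Site d) (k : ℕ) :
    own B M (fun i => ω (i.1 + a, i.2.1, i.2.2)) k = trO a (own B M ω k) := by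
  have hr : ∀ c w, reach B M (fun i : Idx d => ω (i.1 + a, i.2.1, i.2.2)) k c w ↔
      reach B M ω k (c + a) (w + a) := by
    intro c w
    unfold reach
    rw [nd_add_right]
  funext c w
  refine propext ?_
  constructor
  · rintro ⟨h1, h2⟩
    refine ⟨(hr c w).1 h1, fun c' hne hc' => ?_⟩
    have := h2 (c' - a) (fun h => hne (by rw [← h, sub_add_cancel]))
      ((hr _ w).2 (by rw [sub_add_cancel]; exact hc'))
    simpa [sub_add_cancel] using this
  · rintro ⟨h1, h2⟩
    refine ⟨(hr c w).2 h1, fun c' hne hc' => ?_⟩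
    exact h2 (c' + a) (fun h => hne (add_right_cancel h)) ((hr c' w).1 hc')

/-! Measurability -/

theorem measurableSet_reach (k : ℕ) (c w : Site d) :
    MeasurableSet {ω : Idx d → I | reach B M ω k c w} := by
  unfold reach
  refine measurableSet_le measurable_const ?_
  exact (((measurable_subtype_coe).comp (measurable_pi_apply (c, k, true))).const_add 1).const_mul _

theorem measurableSet_own (k : ℕ) (c w : Site d) :
    MeasurableSet {ω : Idx d → I | own B M ω k c w} := by
  have e : {ω : Idx d → I | own B M ω k c w} = {ω | reach B M ω k c w} ∩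
      ⋂ c' : Site d, ({ω : Idx d → I | c' = c} ∪ ({ω | reach B M ω k c' w}ᶜ ∪
        {ω | ω (c, k, false) < ω (c', k, false)})) := by
    ext ω
    simp only [own, Set.mem_ofPred_eq, Set.mem_inter_iff, Set.mem_iInter, Set.mem_union,
      Set.mem_compl_iff]
    refine and_congr Iff.rfl (forall_congr' fun c' => ?_)
    tauto
  rw [e]
  refine (measurableSet_reach k c w).inter (MeasurableSet.iInter fun c' => ?_)
  refine MeasurableSet.union (MeasurableSet.const _) ?_
  refine MeasurableSet.union (measurableSet_reach k c' w).compl ?_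
  exact measurableSet_lt (measurable_pi_apply _) (measurable_pi_apply _)

theorem finite_ball (v : Site d) (r : ℕ) : {w : Site d | nd v w ≤ r}.Finite := by
  have : {w : Site d | nd v w ≤ r} ⊆
      {w : Site d | ∀ i, w i ∈ Set.Icc (v i - (r : ℤ)) (v i + (r : ℤ))} := by
    intro w hw i
    have h1 := nd_le_iff.1 hw i
    simp only [Set.mem_Icc]
    constructor
    · omega
    · omega
  exact (Set.Finite.pi' (fun i => Set.finite_Icc (v i - (r : ℤ)) (v i + r))).subset this

/-- The finite window of owner relations which determines stage `k` at `v`. -/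
def window (B M : ℕ) (k : ℕ) (v : Site d) : Set (ℕ × Site d × Site d) :=
  {i | i.1 < k ∧ nd v i.2.2 ≤ Rs B M k ∧ nd i.2.1 i.2.2 ≤ 2 * Ls B M k}

theorem finite_window (k : ℕ) (v : Site d) : (window B M k v).Finite := by
  have h1 : (window B M k v) ⊆ (Set.Iio k) ×ˢ ({c : Site d | nd v c ≤ Rs B M k + 2 * Ls B M k} ×ˢ
      {w : Site d | nd v w ≤ Rs B M k}) := by
    rintro ⟨j, c, w⟩ ⟨h1, h2, h3⟩
    refine ⟨h1, ?_, h2⟩
    dsimp only at h2 h3 ⊢
    have := nd_tri v w c
    rw [nd_comm w c] at this
    simp only [Set.mem_ofPred_eq]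
    omega
  exact ((Set.finite_Iio k).prod ((finite_ball _ _).prod (finite_ball _ _))).subset h1

theorem measurableSet_run (hM : 1 ≤ M) (k : ℕ) (v : Site d) (x : Option (ZMod 2 × Fin 3)) :
    MeasurableSet {ω : Idx d → I | run B M (own B M ω) k v = x} := by
  classical
  have hfin : Finite (window (d := d) B M k v) := (finite_window k v).to_subtype
  let Φ : ((window B M k v) → Prop) → Prop := fun p =>
    run B M (fun j c w => ∃ h : (j, c, w) ∈ window B M k v, p ⟨_, h⟩) k v = x
  have hΦ : Measurable Φ := Measurable.of_discrete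
  have hω : Measurable (fun (ω : Idx d → I) (i : window B M k v) =>
      own B M ω i.1.1 i.1.2.1 i.1.2.2) := by
    refine measurable_pi_lambda _ (fun i => ?_)
    exact measurableSet_setOfPred.1 (measurableSet_own _ _ _)
  have : (fun ω : Idx d → I => run B M (own B M ω) k v = x) =
      Φ ∘ (fun (ω : Idx d → I) (i : window B M k v) => own B M ω i.1.1 i.1.2.1 i.1.2.2) := by
    funext ω
    have hg : GoodO B M (fun j c w => ∃ _ : (j, c, w) ∈ window B M k v, own B M ω j c w) := by
      constructor
      · rintro j c c' w ⟨_, h⟩ ⟨_, h'⟩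
        exact (goodO_own ω).uniq j c c' w h h'
      · rintro j c w ⟨_, h⟩
        exact (goodO_own ω).rad j c w h
    have key : run B M (own B M ω) k v =
        run B M (fun j c w => ∃ _ : (j, c, w) ∈ window B M k v, own B M ω j c w) k v := by
      refine run_local (goodO_own ω) hg k v ?_
      intro j hj c w hw
      constructor
      · intro h
        refine ⟨⟨hj, hw, ?_⟩, h⟩
        have h1 := (goodO_own (B := B) (M := M) ω).rad j c w h
        have h2 : Ls B M j ≤ Ls B M k := Ls_mono hM hj.le
        dsimp only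
        omega
      · rintro ⟨_, h⟩
        exact h
    show (run B M (own B M ω) k v = x) = _
    rw [key]
    rfl
  rw [measurableSet_setOfPred, this]
  exact hΦ.comp hω

theorem measurable_colour (hM : 1 ≤ M) (v : Site d) :
    Measurable (fun ω : Idx d → I => colour B M (own B M ω) v) := by
  classical
  have hset : ∀ a : ZMod 2 × Fin 3, MeasurableSet {ω : Idx d → I | ∃ k,
      run B M (own B M ω) k v = some a} := by
    intro a
    have : {ω : Idx d → I | ∃ k, run B M (own B M ω) k v = some a} =
        ⋃ k, {ω : Idx d → I | run B M (own B M ω) k v = some a} := by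
      ext ω; simp
    rw [this]
    exact MeasurableSet.iUnion (fun k => measurableSet_run hM k v _)
  have hnone : MeasurableSet {ω : Idx d → I | ∀ k, run B M (own B M ω) k v = none} := by
    have : {ω : Idx d → I | ∀ k, run B M (own B M ω) k v = none} =
        ⋂ k, {ω : Idx d → I | run B M (own B M ω) k v = none} := by
      ext ω; simp
    rw [this]
    exact MeasurableSet.iInter (fun k => measurableSet_run hM k v _)
  refine measurable_to_countable' (fun c => ?_)
  have e : (fun ω : Idx d → I => colour B M (own B M ω) v) ⁻¹' {c} =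
      (⋃ p : ZMod 2, {ω : Idx d → I | ∃ k, run B M (own B M ω) k v = some (p, c)}) ∪
      ({ω : Idx d → I | ∀ k, run B M (own B M ω) k v = none} ∩ {ω : Idx d → I | c = 0}) := by
    ext ω
    simp only [Set.mem_preimage, Set.mem_singleton_iff, Set.mem_union, Set.mem_iUnion,
      Set.mem_ofPred_eq, Set.mem_inter_iff]
    constructor
    · intro h
      by_cases hn : ∀ k, run B M (own B M ω) k v = none
      · right
        refine ⟨hn, ?_⟩
        rw [← h, colour_of_not hn]
      · left
        push Not at hn
        obtain ⟨k, hk⟩ := hn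
        obtain ⟨a, ha⟩ := Option.ne_none_iff_exists'.1 hk
        refine ⟨a.1, k, ?_⟩
        rw [ha, ← h, colour_of_some ha]
    · rintro (⟨p, k, hk⟩ | ⟨hn, hc⟩)
      · rw [colour_of_some hk]
      · rw [colour_of_not hn, hc]
  rw [e]
  exact (MeasurableSet.iUnion (fun p => hset _)).union (hnone.inter (MeasurableSet.const _))

end Pool.Agent.N945.TC
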