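import Pool.Agent.N945.TC.Comp

/-! Iteration of the colouring step. -/

namespace Pool.Agent.N945.TC

variable {d : ℕ}

/-- The scale of the clusters at level `k`. -/
def Ls (B M k : ℕ) : ℕ := B * M ^ k

/-- The bound on the diameter of the components at stage `k`. -/
def Ds (B M : ℕ) : ℕ → ℕ
  | 0 => 0
  | k + 1 => 2 * (2 * Ls B M k) + 12 + 2 * Ds B M k

/-- The range of dependence of stage `k` on the owner relation. -/
def Rs (B M : ℕ) : ℕ → ℕ
  | 0 => 0
  | k + 1 => Rs B M k + 2 * Ds B M k + 19

/-- The stages of the construction. -/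
noncomputable def run (B M : ℕ) (O : ℕ → Site d → Site d → Prop) : ℕ → St d
  | 0 => fun _ => none
  | k + 1 => step (O k) (Ds B M k + 13) (run B M O k)

/-- Admissible owner relations. -/
structure GoodO (B M : ℕ) (O : ℕ → Site d → Site d → Prop) : Prop where
  uniq : ∀ k, Uniq (O k)
  rad : ∀ k, Rad (O k) (2 * Ls B M k)

variable {B M : ℕ} {O O' : ℕ → Site d → Site d → Prop}

theorem run_inv (hO : GoodO B M O) (k : ℕ) : Inv (run B M O k) := by
  induction k with
  | zero => exact inv_init
  | succ k ih => exact inv_step (hO.uniq k) (by omega) ih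

theorem run_diam (hO : GoodO B M O) (k : ℕ) : Diam (dom (run B M O k)) (Ds B M k) := by
  induction k with
  | zero => exact diam_init
  | succ k ih => exact diam_step (hO.uniq k) (hO.rad k) ih (by omega)

theorem run_succ_of_some {k : ℕ} {v : Site d} {a : ZMod 2 × Fin 3} (h : run B M O k v = some a) :
    run B M O (k + 1) v = some a := step_of_some h

theorem run_mono {k j : ℕ} (hkj : k ≤ j) {v : Site d} {a : ZMod 2 × Fin 3}
    (h : run B M O k v = some a) : run B M O j v = some a := by
  induction j, hkj using Nat.le_induction with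
  | base => exact h
  | succ j _ ih => exact run_succ_of_some ih

theorem run_uniq {k j : ℕ} {v : Site d} {a b : ZMod 2 × Fin 3}
    (h : run B M O k v = some a) (h' : run B M O j v = some b) : a = b := by
  rcases le_total k j with hkj | hkj
  · exact Option.some.inj ((run_mono hkj h).symm.trans h')
  · exact Option.some.inj (h.symm.trans (run_mono hkj h'))

theorem run_progress (hO : GoodO B M O) {k : ℕ} {c v : Site d}
    (h : ∀ w, nd v w ≤ 2 * Ds B M k + 19 → O k c w) : run B M O (k + 1) v ≠ none :=
  progress (hO.uniq k) (run_diam hO k) (fun w hw => h w (by omega))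

theorem run_local (hO : GoodO B M O) (hO' : GoodO B M O') (k : ℕ) (v : Site d)
    (h : ∀ j < k, ∀ c w, nd v w ≤ Rs B M k → (O j c w ↔ O' j c w)) :
    run B M O k v = run B M O' k v := by
  induction k generalizing v with
  | zero => rfl
  | succ k ih =>
    have hR : Rs B M (k + 1) = Rs B M k + 2 * Ds B M k + 19 := rfl
    refine step_local (run_diam hO k) (run_diam hO' k) ?_ ?_
    · intro w hw
      refine ih w (fun j hj c w' hw' => h j (by omega) c w' ?_)
      have := nd_tri v w w'
      omega
    · intro c w hw
      exact h k (by omega) c w (by omega)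

theorem run_tr (hO : GoodO B M O) (a : Site d) (k : ℕ) (v : Site d) :
    run B M (fun j => trO a (O j)) k v = run B M O k (v + a) := by
  induction k generalizing v with
  | zero => rfl
  | succ k ih =>
    have h1 : run B M (fun j => trO a (O j)) k = fun v => run B M O k (v + a) := funext ih
    show step (trO a (O k)) (Ds B M k + 13) (run B M (fun j => trO a (O j)) k) v =
      step (O k) (Ds B M k + 13) (run B M O k) (v + a)
    rw [h1]
    exact step_tr (hO.uniq k) a v

/-- The final colouring. -/
noncomputable def colour (B M : ℕ) (O : ℕ → Site d → Site d → Prop) (v : Site d) : Fin 3 :=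
  (pick (fun a => ∃ k, run B M O k v = some a) Prod.snd).getD 0

theorem colour_of_some {k : ℕ} {v : Site d} {a : ZMod 2 × Fin 3} (h : run B M O k v = some a) :
    colour B M O v = a.2 := by
  unfold colour
  rw [pick_eq_some (p := fun a => ∃ k, run B M O k v = some a) (f := Prod.snd) (c := a) ⟨k, h⟩
    (fun b ⟨j, hb⟩ => run_uniq hb h)]
  rfl

theorem colour_of_not {v : Site d} (h : ∀ k, run B M O k v = none) :
    colour B M O v = 0 := by
  unfold colour
  rw [pick_eq_none]
  · rfl
  · rintro ⟨a, k, hk⟩
    rw [h k] at hk
    exact absurd hk (by simp)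

theorem colour_tr (hO : GoodO B M O) (a v : Site d) :
    colour B M (fun j => trO a (O j)) v = colour B M O (v + a) := by
  unfold colour
  simp only [run_tr hO a]

/-- If every site is eventually coloured, the colouring is proper. -/
theorem colour_proper (hO : GoodO B M O) (h : ∀ v, ∃ k, run B M O k v ≠ none) :
    IsProper (colour B M O) := by
  intro u v huv
  obtain ⟨k, hk⟩ := h u
  obtain ⟨j, hj⟩ := h v
  obtain ⟨a, ha⟩ := Option.ne_none_iff_exists'.1 hk
  obtain ⟨b, hb⟩ := Option.ne_none_iff_exists'.1 hj
  rw [colour_of_some ha, colour_of_some hb]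
  exact (run_inv hO (max k j)).proper u v a b (run_mono (le_max_left _ _) ha)
    (run_mono (le_max_right _ _) hb) huv

end Pool.Agent.N945.TC
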