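import Pool.Agent.N945.TC.Geom

/-! The inductive colouring step on a hierarchy of clusterings. -/

namespace Pool.Agent.N945.TC

variable {d : ℕ}

/-- Choice of a witness. -/
noncomputable def pick {α β : Type*} (p : α → Prop) (f : α → β) : Option β := by
  classical
  exact if h : ∃ c, p c then some (f h.choose) else none

theorem pick_eq_none {α β : Type*} {p : α → Prop} {f : α → β} (h : ¬ ∃ c, p c) :
    pick p f = none := by
  unfold pick
  rw [dif_neg h]

theorem pick_eq_some {α β : Type*} {p : α → Prop} {f : α → β} {c : α} (hc : p c)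
    (hu : ∀ c', p c' → c' = c) : pick p f = some (f c) := by
  unfold pick
  have h : ∃ c, p c := ⟨c, hc⟩
  rw [dif_pos h, hu _ h.choose_spec]

/-- The ball of radius `g` around `v` lies in the cluster of `c`. -/
def core (O : Site d → Site d → Prop) (g : ℕ) (c v : Site d) : Prop := ∀ w, nd v w ≤ g → O c w

/-- One step of a chain in `V`. -/
def link (V : Set (Site d)) (a b : Site d) : Prop := b ∈ V ∧ nd a b ≤ 6

/-- Chains in `V` with steps of size at most `6`. -/
def Chain (V : Set (Site d)) : Site d → Site d → Prop := Relation.ReflTransGen (link V)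

/-- The vertex `v` is coloured by the centre `c`. -/
def piece (O : Site d → Site d → Prop) (g : ℕ) (V : Set (Site d)) (c v : Site d) : Prop :=
  core O g c v ∧ ∀ w ∈ V, nd v w ≤ 3 → ∀ z, Chain V w z → ∀ z', nd z z' ≤ 3 → core O g c z'

/-- Partial colourings, together with a flat parity for each coloured site. -/
abbrev St (d : ℕ) := Site d → Option (ZMod 2 × Fin 3)

/-- The coloured sites. -/
def dom (s : St d) : Set (Site d) := {v | s v ≠ none}

/-- `w` is coloured, with flat parity disagreeing with the parity of the centre `c`. -/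
def wrong (s : St d) (c w : Site d) : Prop := ∃ a, s w = some a ∧ a.1 ≠ par (w - c)

/-- A wrong vertex lies within distance `r`. -/
def wrongNear (s : St d) (c v : Site d) (r : ℕ) : Prop := ∃ w, wrong s c w ∧ n1 v w ≤ r

/-- The new flat parity and colour. -/
noncomputable def newVal (s : St d) (c v : Site d) : ZMod 2 × Fin 3 := by
  classical
  exact (par (v - c), if par (v - c) = 0 then (if wrongNear s c v 2 then 2 else 0)
    else (if wrongNear s c v 1 then 0 else 1))

/-- One stage of the construction. -/
noncomputable def step (O : Site d → Site d → Prop) (g : ℕ) (s : St d) : St d := by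
  classical
  exact fun v => if s v = none then pick (fun c => piece O g (dom s) c v) (fun c => newVal s c v)
    else s v

section step
variable {O : Site d → Site d → Prop} {g : ℕ} {s : St d}

/-- Each site has at most one owner. -/
def Uniq (O : Site d → Site d → Prop) : Prop := ∀ c c' v, O c v → O c' v → c = c'

theorem core_self {c v : Site d} (h : core O g c v) : O c v := h v (by simp)

theorem core_uniq (hO : Uniq O) {c c' v w : Site d} (h : core O g c v) (h' : core O g c' w)
    (hvw : nd v w ≤ g) : c = c' := hO _ _ w (h w hvw) (core_self h')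

theorem step_of_ne {v : Site d} (h : s v ≠ none) : step O g s v = s v := by
  unfold step
  rw [if_neg h]

theorem step_of_some {v : Site d} {a : ZMod 2 × Fin 3} (h : s v = some a) :
    step O g s v = some a := by
  rw [step_of_ne (by rw [h]; simp), h]

theorem step_of_piece (hO : Uniq O) {c v : Site d} (h : s v = none) (hp : piece O g (dom s) c v) :
    step O g s v = some (newVal s c v) := by
  unfold step
  rw [if_pos h]
  exact pick_eq_some (p := fun c => piece O g (dom s) c v) (f := fun c => newVal s c v) hp
    (fun c' hc' => core_uniq hO hc'.1 hp.1 (by simp))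

theorem step_of_not {v : Site d} (h : s v = none) (hp : ¬ ∃ c, piece O g (dom s) c v) :
    step O g s v = none := by
  unfold step
  rw [if_pos h]
  exact pick_eq_none hp

theorem step_cases (hO : Uniq O) {v : Site d} {b : ZMod 2 × Fin 3} (h : step O g s v = some b) :
    s v = some b ∨ (s v = none ∧ ∃ c, piece O g (dom s) c v ∧ b = newVal s c v) := by
  by_cases h0 : s v = none
  · right
    refine ⟨h0, ?_⟩
    by_cases hp : ∃ c, piece O g (dom s) c v
    · obtain ⟨c, hc⟩ := hp
      refine ⟨c, hc, ?_⟩
      rw [step_of_piece hO h0 hc] at h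
      exact (Option.some.inj h).symm
    · rw [step_of_not h0 hp] at h
      exact absurd h (by simp)
  · left
    rw [step_of_ne h0] at h
    exact h

theorem mem_dom {v : Site d} : v ∈ dom s ↔ s v ≠ none := Iff.rfl

theorem dom_step_mono : dom s ⊆ dom (step O g s) := by
  intro v hv
  rw [mem_dom] at hv ⊢
  rwa [step_of_ne hv]

theorem key (hO : Uniq O) {c v w z : Site d} (hp : piece O g (dom s) c v) (hw : w ∈ dom s)
    (hvw : nd v w ≤ 3) (hwz : nd w z ≤ 3) : step O g s z ≠ none := by
  by_cases hz : s z = none
  · have : piece O g (dom s) c z := by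
      refine ⟨hp.2 w hw hvw w Relation.ReflTransGen.refl z hwz, ?_⟩
      intro w' hw' hzw' y hy y' hyy'
      refine hp.2 w hw hvw y ?_ y' hyy'
      refine Relation.ReflTransGen.head ⟨hw', ?_⟩ hy
      have := nd_tri w z w'
      omega
    rw [step_of_piece hO hz this]
    simp
  · rw [step_of_ne hz]
    exact hz

/-- The invariants of the construction. -/
structure Inv (s : St d) : Prop where
  proper : ∀ v w a b, s v = some a → s w = some b → n1 v w = 1 → a.2 ≠ b.2
  flat : ∀ w v a, s w = some a → s v = none → n1 w v = 1 → a.2 = if a.1 = 0 then 0 else 1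
  mism : ∀ w w' a b, s w = some a → s w' = some b → n1 w w' ≤ 2 → a.1 + b.1 ≠ par (w - w') →
    ∀ z, n1 w z = 1 → s z ≠ none

theorem inv_init : Inv (fun _ : Site d => (none : Option (ZMod 2 × Fin 3))) := by
  constructor
  · intro v w a b h; exact absurd h (by simp)
  · intro v w a h; exact absurd h (by simp)
  · intro v w a b h; exact absurd h (by simp)

theorem zmod_cases (x : ZMod 2) : x = 0 ∨ x = 1 := by
  revert x; decide

theorem mism_of_wrong {a b : ZMod 2} {w w' c : Site d} (h1 : a = par (w - c))
    (h2 : b ≠ par (w' - c)) : a + b ≠ par (w - w') := by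
  rw [par_sub] at *
  have : ∀ a b p q r : ZMod 2, a = p - r → b ≠ q - r → a + b ≠ p - q := by decide
  exact this _ _ _ _ _ h1 h2

theorem mism_of_wrong' {a b : ZMod 2} {w w' c : Site d} (h1 : a ≠ par (w - c))
    (h2 : b = par (w' - c)) : a + b ≠ par (w - w') := by
  rw [par_sub] at *
  have : ∀ a b p q r : ZMod 2, a ≠ p - r → b = q - r → a + b ≠ p - q := by decide
  exact this _ _ _ _ _ h1 h2

theorem match_of_same {a b : ZMod 2} {w w' c : Site d} (h1 : a = par (w - c))
    (h2 : b = par (w' - c)) : a + b = par (w - w') := by
  rw [par_sub] at *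
  have : ∀ a b p q r : ZMod 2, a = p - r → b = q - r → a + b = p - q := by decide
  exact this _ _ _ _ _ h1 h2

theorem newVal_fst (c v : Site d) : (newVal s c v).1 = par (v - c) := rfl

theorem newVal_snd (c v : Site d) : (newVal s c v).2 =
    open Classical in (if par (v - c) = 0 then (if wrongNear s c v 2 then 2 else 0)
    else (if wrongNear s c v 1 then 0 else 1)) := rfl

theorem wrongNear_tri {c v v' : Site d} {r r' : ℕ} (h : wrongNear s c v r)
    (hv : n1 v' v + r ≤ r') : wrongNear s c v' r' := by
  obtain ⟨w, hw, h1⟩ := h
  exact ⟨w, hw, (n1_tri v' v w).trans (by omega)⟩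

/-- A new vertex next to an old one gets a different colour. -/
theorem new_old (hI : Inv s) {c v w : Site d} {a : ZMod 2 × Fin 3} (hv : s v = none)
    (hw : s w = some a) (hvw : n1 v w = 1) : (newVal s c v).2 ≠ a.2 := by
  have hflat := hI.flat w v a hw hv (by rw [n1_comm]; exact hvw)
  have hpar : par (v - c) = par (w - c) + 1 := by
    rw [par_sub, par_sub, par_adj hvw]; ring
  rw [hflat, newVal_snd]
  by_cases hr : a.1 = par (w - c)
  · -- right vertex
    rcases zmod_cases (par (w - c)) with h0 | h0
    · rw [hr, hpar, h0]
      simp only [zero_add, one_ne_zero, if_false, if_true]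
      have hnot : ¬ wrongNear s c v 1 := by
        rintro ⟨w', ⟨b, hb, hb'⟩, h1⟩
        refine hI.mism w w' a b hw hb ?_ (mism_of_wrong hr hb') v (by rw [n1_comm]; exact hvw) hv
        have := n1_tri w v w'
        rw [n1_comm w v] at this
        omega
      rw [if_neg hnot]
      decide
    · rw [hr, hpar, h0]
      have e : (1 + 1 : ZMod 2) = 0 := by decide
      rw [e, if_pos rfl]
      simp only [one_ne_zero, if_false]
      split_ifs <;> decide
  · -- wrong vertex
    have hwr : wrong s c w := ⟨a, hw, hr⟩
    have h1 : wrongNear s c v 1 := ⟨w, hwr, hvw.le⟩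
    have h2 : wrongNear s c v 2 := ⟨w, hwr, by omega⟩
    have ha : a.1 = par (w - c) + 1 := by
      have : ∀ x y : ZMod 2, x ≠ y → x = y + 1 := by decide
      exact this _ _ hr
    rw [ha, hpar, if_pos h1, if_pos h2]
    rcases zmod_cases (par (w - c) + 1) with h0 | h0
    · rw [h0]; simp
    · rw [h0]; simp

/-- Two adjacent new vertices of the same centre get different colours. -/
theorem new_new {c v w : Site d} (hvw : n1 v w = 1) :
    (newVal s c v).2 ≠ (newVal s c w).2 := by
  have hpar : par (v - c) = par (w - c) + 1 := by
    rw [par_sub, par_sub, par_adj hvw]; ring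
  rw [newVal_snd, newVal_snd]
  rcases zmod_cases (par (w - c)) with h0 | h0
  · rw [hpar, h0]
    simp only [zero_add, one_ne_zero, if_false, if_true]
    by_cases h1 : wrongNear s c v 1
    · have h2 : wrongNear s c w 2 := wrongNear_tri h1 (by rw [n1_comm]; omega)
      rw [if_pos h1, if_pos h2]
      decide
    · rw [if_neg h1]
      split_ifs <;> decide
  · have e : (1 + 1 : ZMod 2) = 0 := by decide
    rw [hpar, h0, e]
    simp only [one_ne_zero, if_false, if_true]
    by_cases h1 : wrongNear s c w 1
    · have h2 : wrongNear s c v 2 := wrongNear_tri h1 (by omega)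
      rw [if_pos h1, if_pos h2]
      decide
    · rw [if_neg h1]
      split_ifs <;> decide

theorem inv_step (hO : Uniq O) (hg : 3 ≤ g) (hI : Inv s) : Inv (step O g s) := by
  -- near a wrong vertex everything is coloured
  have hnear : ∀ c v, piece O g (dom s) c v → wrongNear s c v 2 → ∀ z, n1 v z = 1 →
      step O g s z ≠ none := by
    rintro c v hp ⟨w', ⟨b, hb, hb'⟩, h1⟩ z hz
    have hw' : w' ∈ dom s := by rw [mem_dom, hb]; simp
    have h2 := nd_le_n1 v w'
    have h3 := nd_le_n1 w' z
    have h4 := n1_tri w' v z
    rw [n1_comm w' v] at h4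
    exact key hO hp hw' (by omega) (by omega)
  constructor
  · intro v w a b hv hw hvw
    rcases step_cases hO hv with h1 | ⟨h1, c, hc, rfl⟩
    · rcases step_cases hO hw with h2 | ⟨h2, c', hc', rfl⟩
      · exact hI.proper v w a b h1 h2 hvw
      · exact (new_old hI h2 h1 (by rw [n1_comm]; exact hvw)).symm
    · rcases step_cases hO hw with h2 | ⟨h2, c', hc', rfl⟩
      · exact new_old hI h1 h2 hvw
      · have hcc : c = c' := core_uniq hO hc.1 hc'.1 (by have := nd_le_n1 v w; omega)
        subst hcc
        exact new_new hvw
  · intro w v a hw hv hwv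
    have hv0 : s v = none := by
      by_contra h
      exact h (by rw [step_of_ne h] at hv; exact hv)
    rcases step_cases hO hw with h1 | ⟨h1, c, hc, rfl⟩
    · exact hI.flat w v a h1 hv0 hwv
    · have hno : ¬ wrongNear s c w 2 := fun h => hnear c w hc h v hwv hv
      have hno1 : ¬ wrongNear s c w 1 := fun h => hno (wrongNear_tri h (by rw [n1_self]; omega))
      rw [newVal_snd, newVal_fst, if_neg hno, if_neg hno1]
  · intro w w' a b hw hw' hww' hmis z hz
    have hd : nd w w' ≤ 2 := (nd_le_n1 w w').trans hww'
    have hdz : nd w z ≤ 1 := (nd_le_n1 w z).trans hz.le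
    rcases step_cases hO hw with h1 | ⟨h1, c, hc, rfl⟩
    · rcases step_cases hO hw' with h2 | ⟨h2, c', hc', rfl⟩
      · have := hI.mism w w' a b h1 h2 hww' hmis z hz
        rw [step_of_ne this]
        exact this
      · refine key hO hc' (w := w) (by rw [mem_dom, h1]; simp) ?_ (by omega)
        rw [nd_comm]; omega
    · rcases step_cases hO hw' with h2 | ⟨h2, c', hc', rfl⟩
      · refine key hO hc (w := w') (by rw [mem_dom, h2]; simp) (by omega) ?_
        have := nd_tri w' w z
        rw [nd_comm w' w] at this
        omega
      · exfalso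
        have hcc : c = c' := core_uniq hO hc.1 hc'.1 (by omega)
        subst hcc
        exact hmis (match_of_same rfl rfl)

end step

end Pool.Agent.N945.TC
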