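import Pool.Agent.N945.TC.Lower
import Pool.Agent.N945.TC.Defs

/-! The obstruction for finitary 3-colourings of `ℤ^d`, `d ≥ 2`. -/

namespace Pool.Agent.N945.TC

open MeasureTheory ProbabilityTheory
open scoped ENNReal

variable {T : Type*} [MeasurableSpace T]

/-- Unfold a field on the plane with columns as labels. -/
def unfoldC (m : ℕ) (u : ℤ × ℤ → ((Fin m → ℤ) → T)) : Site (m + 2) → T :=
  fun p => u (p 0, p 1) (fun i => p i.succ.succ)

/-- The embedded plane. -/
def emb (m : ℕ) (v : ℤ × ℤ) : Site (m + 2) := Fin.cons v.1 (Fin.cons v.2 0)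

theorem law_unfoldC (m : ℕ) (μ : Measure T) [IsProbabilityMeasure μ] :
    (iid (ℤ × ℤ) (iid (Fin m → ℤ) μ)).map (unfoldC m) = iidLaw (m + 2) μ := by
  have h1 := Measure.infinitePi_map_curry_symm (fun (_ : ℤ × ℤ) (_ : Fin m → ℤ) => μ)
  have hf : Function.Injective (fun p : Site (m + 2) =>
      (((p 0, p 1), fun i : Fin m => p i.succ.succ) : (ℤ × ℤ) × (Fin m → ℤ))) := by
    intro p q h
    simp only [Prod.mk.injEq] at h
    obtain ⟨⟨h0, h1⟩, h2⟩ := h
    funext i
    refine Fin.cases h0 (fun j => ?_) i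
    refine Fin.cases h1 (fun k => ?_) j
    exact congrFun h2 k
  have h2 := iid_map_inj μ _ hf
  have h3 : iidLaw (m + 2) μ = iid (Site (m + 2)) μ := rfl
  rw [h3, ← h2]
  have h4 : iid ((ℤ × ℤ) × (Fin m → ℤ)) μ = Measure.map
      (⇑(MeasurableEquiv.curry (ℤ × ℤ) (Fin m → ℤ) T).symm)
      (iid (ℤ × ℤ) (iid (Fin m → ℤ) μ)) := h1.symm
  rw [h4, Measure.map_map]
  · rfl
  · exact measurable_pi_lambda _ (fun _ => measurable_pi_apply _)
  · exact (MeasurableEquiv.curry _ _ _).symm.measurable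

theorem measurable_unfoldC (m : ℕ) :
    Measurable (unfoldC m : (ℤ × ℤ → ((Fin m → ℤ) → T)) → (Site (m + 2) → T)) :=
  measurable_pi_lambda _ (fun _ => (measurable_pi_apply _).comp (measurable_pi_apply _))

/-- Truncation of the labels outside of a ball. -/
def trunc {d : ℕ} (r : ℕ) (t0 : T) (y : Site d → T) : Site d → T :=
  fun v => if norm1 v ≤ r then y v else t0

theorem measurable_trunc {d : ℕ} (r : ℕ) (t0 : T) :
    Measurable (trunc r t0 : (Site d → T) → (Site d → T)) := by
  refine measurable_pi_lambda _ (fun v => ?_)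
  unfold trunc
  split_ifs
  · exact measurable_pi_apply _
  · exact measurable_const

theorem measurable_translate {d : ℕ} (a : Site d) :
    Measurable (translate a : (Site d → T) → (Site d → T)) :=
  measurable_pi_lambda _ (fun _ => measurable_pi_apply _)

theorem law_translate {d : ℕ} (μ : Measure T) [IsProbabilityMeasure μ] (a : Site d) :
    (iidLaw d μ).map (translate a) = iidLaw d μ :=
  iid_map_inj μ (fun v : Site d => v + a) (add_left_injective a)

theorem norm1_emb_sub (m : ℕ) (v w : ℤ × ℤ) :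
    norm1 (emb m v - emb m w) = (v.1 - w.1).natAbs + (v.2 - w.2).natAbs := by
  unfold norm1 emb
  rw [Fin.sum_univ_succ, Fin.sum_univ_succ]
  simp

theorem natAbs_le_norm1 {d : ℕ} (v : Site d) (i : Fin d) : (v i).natAbs ≤ norm1 v :=
  Finset.single_le_sum (f := fun i => (v i).natAbs) (fun _ _ => Nat.zero_le _) (Finset.mem_univ i)

/-- The set on which truncation at radius `r` changes the colour of the origin. -/
def badSet {d : ℕ} (F : (Site d → T) → Site d → Fin 3) (t0 : T) (r : ℕ) : Set (Site d → T) :=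
  {y | F y 0 ≠ F (trunc r t0 y) 0}

theorem measurableSet_badSet {d : ℕ} {F : (Site d → T) → Site d → Fin 3} (hF : Measurable F)
    (t0 : T) (r : ℕ) : MeasurableSet (badSet F t0 r) :=
  (measurableSet_eq_fun ((measurable_pi_apply 0).comp hF)
    ((measurable_pi_apply 0).comp (hF.comp (measurable_trunc r t0)))).compl

omit [MeasurableSpace T] in
theorem badSet_subset {d : ℕ} (F : (Site d → T) → Site d → Fin 3) (t0 : T) (r : ℕ)
    (y : Site d → T) (hy : y ∈ badSet F t0 r) : (r : ℕ∞) < codingRadius F y := by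
  have h1 : ((r : ℕ∞) + 1) ≤ codingRadius F y := by
    unfold codingRadius
    refine le_iInf₂ (fun r' hr' => ?_)
    have h2 : r < r' := by
      by_contra hle
      push Not at hle
      apply hy
      refine (hr' _ (fun v hv => ?_)).symm
      unfold trunc
      rw [if_pos (hv.trans hle)]
    exact_mod_cast h2
  exact (ENat.add_one_le_iff (by simp)).1 h1

theorem approx_of_ffiid {m : ℕ} (μ : Measure T) [IsProbabilityMeasure μ]
    {F : (Site (m + 2) → T) → Site (m + 2) → Fin 3} (hF : IsFfiid3Coloring μ F) (t0 : T) (r : ℕ) :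
    Approx (iid (Fin m → ℤ) μ) (fun u => F (trunc r t0 (unfoldC m u)) 0) r
      (iidLaw (m + 2) μ (badSet F t0 r)) := by
  have hZ : ∀ (u : ℤ × ℤ → ((Fin m → ℤ) → T)) (v : ℤ × ℤ),
      Z (fun u => F (trunc r t0 (unfoldC m u)) 0) u v =
        F (trunc r t0 (translate (emb m v) (unfoldC m u))) 0 := by
    intro u v
    have : unfoldC m (fun k => u (v + k)) = translate (emb m v) (unfoldC m u) := by
      funext p
      have e1 : v + (p 0, p 1) = (p 0 + v.1, p 1 + v.2) := by
        ext <;> simp [add_comm]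
      have e2 : (fun i : Fin m => p i.succ.succ) = fun i : Fin m => (p + emb m v) i.succ.succ := by
        funext i
        simp [emb]
      show u (v + (p 0, p 1)) (fun i => p i.succ.succ) =
        u ((p + emb m v) 0, (p + emb m v) 1) (fun i => (p + emb m v) i.succ.succ)
      rw [e1, e2]
      congr 1
    show F (trunc r t0 (unfoldC m (fun k => u (v + k)))) 0 = _
    rw [this]
  refine ⟨?_, ?_, ?_⟩
  · exact (measurable_pi_apply 0).comp (hF.measurable.comp
      ((measurable_trunc r t0).comp (measurable_unfoldC m)))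
  · intro u u' h
    have : trunc r t0 (unfoldC m u) = trunc r t0 (unfoldC m u') := by
      funext p
      unfold trunc unfoldC
      by_cases hp : norm1 p ≤ r
      · rw [if_pos hp, if_pos hp]
        have h0 := natAbs_le_norm1 p 0
        have h1 := natAbs_le_norm1 p 1
        rw [h (p 0, p 1) (by dsimp only; rw [abs_le]; omega) (by dsimp only; rw [abs_le]; omega)]
      · rw [if_neg hp, if_neg hp]
    dsimp only
    rw [this]
  · refine ⟨fun u v => F (unfoldC m u) (emb m v), ?_, ?_⟩
    · have h1 : ∀ᵐ y ∂((iid (ℤ × ℤ) (iid (Fin m → ℤ) μ)).map (unfoldC m)), IsProper (F y) := by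
        rw [law_unfoldC]; exact hF.proper
      have h2 := ae_of_ae_map (measurable_unfoldC m).aemeasurable h1
      filter_upwards [h2] with u hu
      intro i j
      constructor
      · refine hu _ _ ?_
        rw [norm1_emb_sub]
        simp
      · refine hu _ _ ?_
        rw [norm1_emb_sub]
        simp
    · intro v
      have e1 : {u : ℤ × ℤ → ((Fin m → ℤ) → T) | F (unfoldC m u) (emb m v) ≠
          Z (fun u => F (trunc r t0 (unfoldC m u)) 0) u v} =
          unfoldC m ⁻¹' (translate (emb m v) ⁻¹' (badSet F t0 r)) := by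
        ext u
        simp only [Set.mem_ofPred_eq, Set.mem_preimage, badSet]
        rw [hZ, hF.translate_eq]
        simp only [translate, zero_add]
      rw [e1, ← Measure.map_apply (measurable_unfoldC m)
        (measurable_translate _ (measurableSet_badSet hF.measurable t0 r)), law_unfoldC,
        ← Measure.map_apply (measurable_translate _) (measurableSet_badSet hF.measurable t0 r),
        law_translate]

theorem badSet_lower {d : ℕ} (hd : 2 ≤ d) (μ : Measure T) [IsProbabilityMeasure μ]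
    {F : (Site d → T) → Site d → Fin 3} (hF : IsFfiid3Coloring μ F) (t0 : T) (r : ℕ) :
    1 ≤ ((240 * (r + 1) : ℕ) : ℝ≥0∞) * iidLaw d μ (badSet F t0 r) := by
  obtain ⟨m, rfl⟩ : ∃ m, d = m + 2 := ⟨d - 2, by omega⟩
  exact (approx_of_ffiid μ hF t0 r).lower

/-- Tail lower bound for the coding radius. -/
theorem tail_lower {d : ℕ} (hd : 2 ≤ d) (μ : Measure T) [IsProbabilityMeasure μ]
    {F : (Site d → T) → Site d → Fin 3} (hF : IsFfiid3Coloring μ F) (r : ℕ) :
    ((240 * (r + 1) : ℕ) : ℝ≥0∞)⁻¹ ≤ iidLaw d μ {y | (r : ℕ∞) < codingRadius F y} := by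
  obtain ⟨t0⟩ := nonempty_of_prob μ
  have h1 := badSet_lower hd μ hF t0 r
  have h2 : iidLaw d μ (badSet F t0 r) ≤ iidLaw d μ {y | (r : ℕ∞) < codingRadius F y} :=
    measure_mono (fun y hy => badSet_subset F t0 r y hy)
  refine le_trans ?_ h2
  rw [ENNReal.inv_le_iff_le_mul (fun _ => by rw [Nat.cast_ne_zero]; omega)
    (fun h => absurd h (ENNReal.natCast_ne_top _))]
  exact h1

theorem tsum_inv_eq_top : ∑' r : ℕ, (((240 * (r + 1) : ℕ) : ℝ≥0∞))⁻¹ = ⊤ := by
  by_contra hne
  have hs := ENNReal.summable_toReal hne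
  have e : (fun r : ℕ => ((((240 * (r + 1) : ℕ) : ℝ≥0∞))⁻¹).toReal) =
      fun r : ℕ => (240 : ℝ)⁻¹ * (1 / ((r + 1 : ℕ) : ℝ)) := by
    funext r
    rw [ENNReal.toReal_inv, ENNReal.toReal_natCast]
    push_cast
    rw [mul_inv, one_div]
  rw [e] at hs
  have hs2 := (summable_mul_left_iff (by norm_num : (240 : ℝ)⁻¹ ≠ 0)).1 hs
  exact Real.not_summable_one_div_natCast ((summable_nat_add_iff 1).1 hs2)

/-- The coding radius has infinite mean. -/
theorem radius_infinite_mean {d : ℕ} (hd : 2 ≤ d) (μ : Measure T) [IsProbabilityMeasure μ]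
    {F : (Site d → T) → Site d → Fin 3} (hF : IsFfiid3Coloring μ F) :
    ∫⁻ y, ((codingRadius F y : ℕ∞) : ℝ≥0∞) ∂(iidLaw d μ) = ⊤ := by
  obtain ⟨t0⟩ := nonempty_of_prob μ
  have hle : ∀ y, ∑' r : ℕ, (badSet F t0 r).indicator (fun _ => (1 : ℝ≥0∞)) y ≤
      ((codingRadius F y : ℕ∞) : ℝ≥0∞) := by
    intro y
    by_cases htop : codingRadius F y = ⊤
    · rw [htop]; simp
    · obtain ⟨n, hn⟩ := ENat.ne_top_iff_exists.1 htop
      rw [tsum_eq_sum (s := Finset.range n)]
      · calc ∑ r ∈ Finset.range n, (badSet F t0 r).indicator (fun _ => (1 : ℝ≥0∞)) y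
            ≤ ∑ r ∈ Finset.range n, (1 : ℝ≥0∞) := by
              refine Finset.sum_le_sum (fun r _ => ?_)
              exact Set.indicator_le_self' (fun _ _ => zero_le) y
          _ = ((codingRadius F y : ℕ∞) : ℝ≥0∞) := by
              rw [← hn]; simp
      · intro r hr
        rw [Finset.mem_range, not_lt] at hr
        refine Set.indicator_of_notMem (fun hy => ?_) _
        have := badSet_subset F t0 r y hy
        rw [← hn] at this
        have h3 : r < n := by exact_mod_cast this
        omega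
  refine top_le_iff.1 ?_
  calc (⊤ : ℝ≥0∞) = ∑' r : ℕ, (((240 * (r + 1) : ℕ) : ℝ≥0∞))⁻¹ := tsum_inv_eq_top.symm
    _ ≤ ∑' r : ℕ, iidLaw d μ (badSet F t0 r) := by
        refine ENNReal.tsum_le_tsum (fun r => ?_)
        rw [ENNReal.inv_le_iff_le_mul (fun _ => by rw [Nat.cast_ne_zero]; omega)
          (fun h => absurd h (ENNReal.natCast_ne_top _))]
        exact badSet_lower hd μ hF t0 r
    _ = ∑' r : ℕ, ∫⁻ y, (badSet F t0 r).indicator (fun _ => (1 : ℝ≥0∞)) y ∂(iidLaw d μ) := by
        refine tsum_congr (fun r => ?_)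
        rw [lintegral_indicator_const (measurableSet_badSet hF.measurable t0 r), one_mul]
    _ = ∫⁻ y, ∑' r : ℕ, (badSet F t0 r).indicator (fun _ => (1 : ℝ≥0∞)) y ∂(iidLaw d μ) := by
        rw [lintegral_tsum]
        intro r
        exact (measurable_const.indicator
          (measurableSet_badSet hF.measurable t0 r)).aemeasurable
    _ ≤ ∫⁻ y, ((codingRadius F y : ℕ∞) : ℝ≥0∞) ∂(iidLaw d μ) := lintegral_mono hle

theorem le_rpow_enat {α : ℝ} (hα : 1 ≤ α) (n : ℕ∞) : (n : ℝ≥0∞) ≤ (n : ℝ≥0∞) ^ α := by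
  by_cases h0 : n = 0
  · rw [h0]; simp
  · have h1 : (1 : ℝ≥0∞) ≤ (n : ℝ≥0∞) := by
      have : (1 : ℕ∞) ≤ n := Order.one_le_iff_ne_zero.2 h0
      exact_mod_cast this
    calc (n : ℝ≥0∞) = (n : ℝ≥0∞) ^ (1 : ℝ) := (ENNReal.rpow_one _).symm
      _ ≤ (n : ℝ≥0∞) ^ α := ENNReal.rpow_le_rpow_of_exponent_le h1 hα

theorem radiusMoment_top {d : ℕ} (hd : 2 ≤ d) (μ : Measure T) [IsProbabilityMeasure μ]
    {F : (Site d → T) → Site d → Fin 3} (hF : IsFfiid3Coloring μ F) {α : ℝ} (hα : 1 ≤ α) :
    radiusMoment μ F α = ⊤ := by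
  refine top_le_iff.1 ?_
  rw [← radius_infinite_mean hd μ hF]
  unfold radiusMoment
  exact lintegral_mono (fun y => le_rpow_enat hα _)

end Pool.Agent.N945.TC
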