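import Pool.Agent.N945.TC.Ckr
import Pool.Agent.N945.TC.Transfer

/-! Existence of ffiid 3-colourings whose coding radius has all moments of order less than one. -/

namespace Pool.Agent.N945.TC

open MeasureTheory ProbabilityTheory Filter
open scoped ENNReal unitInterval Topology

variable {d : ℕ} {M : ℕ}

theorem Ls_succ (k : ℕ) : Ls M M (k + 1) = M * Ls M M k := by
  unfold Ls; rw [pow_succ]; ring

theorem Ls_ge (hM : 19 ≤ M) (k : ℕ) : M ≤ Ls M M k := by
  unfold Ls
  exact Nat.le_mul_of_pos_right _ (pow_pos (by omega) _)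

theorem Ds_le (hM : 19 ≤ M) (k : ℕ) : Ds M M (k + 1) ≤ 6 * Ls M M k := by
  induction k with
  | zero =>
    have h := Ls_ge hM 0
    show 2 * (2 * Ls M M 0) + 12 + 2 * 0 ≤ _
    omega
  | succ k ih =>
    have h := Ls_ge hM k
    have h2 : Ds M M (k + 1 + 1) = 2 * (2 * Ls M M (k + 1)) + 12 + 2 * Ds M M (k + 1) := rfl
    rw [h2, Ls_succ]
    have h3 : 19 * Ls M M k ≤ M * Ls M M k := Nat.mul_le_mul_right _ hM
    omega

theorem rho_le (hM : 19 ≤ M) (k : ℕ) : M * (2 * Ds M M k + 19) ≤ 19 * Ls M M k := by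
  cases k with
  | zero =>
    show M * (2 * 0 + 19) ≤ 19 * (M * M ^ 0)
    rw [pow_zero]
    omega
  | succ k =>
    have h1 := Ds_le hM k
    have h2 := Ls_ge hM k
    rw [Ls_succ]
    calc M * (2 * Ds M M (k + 1) + 19) ≤ M * (19 * Ls M M k) := by
          apply Nat.mul_le_mul_left
          omega
      _ = 19 * (M * Ls M M k) := by ring

theorem rho_le' (hM : 19 ≤ M) (k : ℕ) : 2 * Ds M M k + 19 ≤ Ls M M k := by
  have h := rho_le hM k
  have h2 : 19 * (2 * Ds M M k + 19) ≤ M * (2 * Ds M M k + 19) := Nat.mul_le_mul_right _ hM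
  omega

theorem Rs_le (hM : 19 ≤ M) (k : ℕ) : Rs M M k ≤ 2 * Ls M M k := by
  induction k with
  | zero => show 0 ≤ _; omega
  | succ k ih =>
    have h := rho_le' hM k
    have h2 : Rs M M (k + 1) = Rs M M k + 2 * Ds M M k + 19 := rfl
    rw [h2, Ls_succ]
    have h3 : 19 * Ls M M k ≤ M * Ls M M k := Nat.mul_le_mul_right _ hM
    omega

/-- Stage `k` leaves the origin uncoloured. -/
def Unc (M k : ℕ) : Set (Idx d → I) := {ω | run M M (own M M ω) k 0 = none}

/-- The finitely many labels which determine stage `k` at the origin. -/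
noncomputable def wind (d M k : ℕ) : Finset (Idx d) :=
  (box d (4 * Ls M M k)) ×ˢ ((Finset.range k) ×ˢ Finset.univ)

theorem unc_dep (hM : 19 ≤ M) (k : ℕ) (ω ω' : Idx d → I) (h : ∀ i ∈ wind d M k, ω i = ω' i) :
    run M M (own M M ω) k 0 = run M M (own M M ω') k 0 := by
  refine run_own_local (by omega) k 0 (fun c j hj b hc => h _ ?_)
  unfold wind
  rw [Finset.mem_product, mem_box, Finset.mem_product, Finset.mem_range]
  have := Rs_le hM k
  rw [nd_comm] at hc
  exact ⟨by dsimp only; omega, hj, Finset.mem_univ _⟩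

theorem unc_step (k : ℕ) : (Unc M (k + 1) : Set (Idx d → I)) ⊆
    Unc M k ∩ {ω | Fail M M k (2 * Ds M M k + 19) ω} := by
  intro ω hω
  constructor
  · by_contra h
    obtain ⟨a, ha⟩ := Option.ne_none_iff_exists'.1 h
    have := run_succ_of_some ha
    have h2 : run M M (own M M ω) (k + 1) 0 = none := hω
    rw [this] at h2
    exact absurd h2 (by simp)
  · rintro ⟨c, hc⟩
    exact run_progress (goodO_own ω) hc hω

/-- The contraction factor. -/
noncomputable def theta (d M : ℕ) : ℝ≥0∞ := (3 ^ d : ℕ) * ENNReal.ofReal (38 / M)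

theorem unc_prob (hM : 19 ≤ M) (k : ℕ) :
    iid (Idx d) (volume : Measure I) (Unc M k) ≤ theta d M ^ k := by
  induction k with
  | zero => rw [pow_zero]; exact prob_le_one
  | succ k ih =>
    have hL : 0 < Ls M M k := by have := Ls_ge hM k; omega
    refine (measure_mono (unc_step k)).trans ?_
    refine (fail_prob k (2 * Ds M M k + 19) hL (rho_le' hM k)
      (measurableSet_run (by omega) k 0 none) (wind d M k) ?_ ?_).trans ?_
    · intro i hi
      unfold wind at hi
      rw [Finset.mem_product, Finset.mem_product, Finset.mem_range] at hi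
      exact hi.2.1
    · intro ω ω' h
      simp only [Set.mem_ofPred_eq]
      rw [unc_dep hM k ω ω' h]
    · rw [pow_succ, mul_comm (theta d M ^ k)]
      refine mul_le_mul' ?_ ih
      unfold theta
      refine mul_le_mul' le_rfl (ENNReal.ofReal_le_ofReal ?_)
      have hL' : (0 : ℝ) < Ls M M k := by exact_mod_cast hL
      have hM' : (0 : ℝ) < M := by exact_mod_cast (by omega : 0 < M)
      rw [div_le_div_iff₀ hL' hM']
      have h := rho_le hM k
      have h' : (M : ℝ) * (2 * Ds M M k + 19) ≤ 19 * Ls M M k := by exact_mod_cast h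
      push_cast
      linarith

/-- For a large scale ratio the contraction beats the growth of the radius. -/
theorem exists_scale (d : ℕ) {α : ℝ} (hα1 : α < 1) :
    ∃ M : ℕ, 19 ≤ M ∧ theta d M * ENNReal.ofReal ((M : ℝ) ^ α) < 1 := by
  have h1 : Tendsto (fun M : ℕ => (3 ^ d : ℝ) * 38 * ((M : ℝ) ^ (-(1 - α)))) atTop (𝓝 0) := by
    have h2 : Tendsto (fun x : ℝ => x ^ (-(1 - α))) atTop (𝓝 0) :=
      tendsto_rpow_neg_atTop (by linarith)
    have h3 := (h2.comp tendsto_natCast_atTop_atTop).const_mul ((3 ^ d : ℝ) * 38)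
    simpa using h3
  have h4 := (h1.eventually_lt_const zero_lt_one).and (eventually_ge_atTop 19)
  obtain ⟨M, hM1, hM2⟩ := h4.exists
  refine ⟨M, hM2, ?_⟩
  have hM : (0 : ℝ) < M := by exact_mod_cast (by omega : 0 < M)
  unfold theta
  have e : ((3 ^ d : ℕ) : ℝ≥0∞) = ENNReal.ofReal (3 ^ d) := by
    rw [← ENNReal.ofReal_natCast]; norm_cast
  rw [e, ← ENNReal.ofReal_mul (by positivity), ← ENNReal.ofReal_mul (by positivity)]
  rw [ENNReal.ofReal_lt_one]
  refine lt_of_eq_of_lt ?_ hM1
  have : (M : ℝ) ^ (-(1 - α)) = (M : ℝ) ^ α / M := by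
    rw [neg_sub, Real.rpow_sub hM, Real.rpow_one]
  rw [this]
  ring

/-- The radius of dependence of stage `k`. -/
def rad (d M k : ℕ) : ℕ := d * (4 * Ls M M k)

/-- The measurable bound for the moment of the coding radius. -/
theorem sum_finite (hM : 19 ≤ M) {α : ℝ} (hα : 0 < α)
    (hθ : theta d M * ENNReal.ofReal ((M : ℝ) ^ α) < 1) :
    ∑' k : ℕ, ((rad d M (k + 1) : ℕ) : ℝ≥0∞) ^ α * iid (Idx d) (volume : Measure I) (Unc M k)
      < ⊤ := by
  have hM' : (0 : ℝ) ≤ M := Nat.cast_nonneg _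
  have hterm : ∀ k : ℕ, ((rad d M (k + 1) : ℕ) : ℝ≥0∞) ^ α *
      iid (Idx d) (volume : Measure I) (Unc M k) ≤
      ((d * (4 * (M * M)) : ℕ) : ℝ≥0∞) ^ α * (theta d M * ENNReal.ofReal ((M : ℝ) ^ α)) ^ k := by
    intro k
    have e1 : rad d M (k + 1) = d * (4 * (M * M)) * M ^ k := by
      unfold rad Ls; rw [pow_succ]; ring
    have e2 : (((M ^ k : ℕ) : ℝ≥0∞)) ^ α = ENNReal.ofReal ((M : ℝ) ^ α) ^ k := by
      rw [← ENNReal.ofReal_natCast, ENNReal.ofReal_rpow_of_nonneg (Nat.cast_nonneg _) hα.le,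
        ← ENNReal.ofReal_pow (Real.rpow_nonneg hM' _)]
      congr 1
      push_cast
      rw [← Real.rpow_natCast, ← Real.rpow_mul hM', ← Real.rpow_natCast, ← Real.rpow_mul hM',
        mul_comm]
    rw [e1, Nat.cast_mul, ENNReal.mul_rpow_of_nonneg _ _ hα.le, e2, mul_pow, mul_assoc,
      mul_comm (theta d M ^ k)]
    gcongr
    exact unc_prob hM k
  refine lt_of_le_of_lt (ENNReal.tsum_le_tsum hterm) ?_
  rw [ENNReal.tsum_mul_left, ENNReal.tsum_geometric]
  refine ENNReal.mul_lt_top ?_ ?_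
  · exact ENNReal.rpow_lt_top_of_nonneg hα.le (ENNReal.natCast_ne_top _)
  · rw [ENNReal.inv_lt_top]
    exact tsub_pos_of_lt hθ

/-- Almost surely the origin is eventually coloured. -/
theorem ae_coloured (hM : 19 ≤ M) (hθ : theta d M < 1) :
    ∀ᵐ ω ∂(iid (Idx d) (volume : Measure I)), ∃ k, run M M (own M M ω) k 0 ≠ none := by
  have h : iid (Idx d) (volume : Measure I) (⋂ k, Unc M k) = 0 := by
    have h1 : ∀ k, iid (Idx d) (volume : Measure I) (⋂ k, Unc M k) ≤ theta d M ^ k := fun k =>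
      (measure_mono (Set.iInter_subset _ k)).trans (unc_prob hM k)
    have h2 := ENNReal.tendsto_pow_atTop_nhds_zero_of_lt_one hθ
    exact le_antisymm (ge_of_tendsto' h2 h1) (zero_le)
  have h3 : {ω : Idx d → I | ¬ ∃ k, run M M (own M M ω) k 0 ≠ none} = ⋂ k, Unc M k := by
    ext ω
    simp [Unc]
  show iid (Idx d) (volume : Measure I) {ω : Idx d → I | ¬ ∃ k, run M M (own M M ω) k 0 ≠ none} = 0
  rw [h3]
  exact h

/-! Transfer to labels uniform on the unit interval. -/

/-- Expand the labels. -/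
def lab (Φ : I → (ℕ × Bool → I)) (y : Site d → I) : Idx d → I := fun i => Φ (y i.1) i.2

theorem measurable_lab {Φ : I → (ℕ × Bool → I)} (hΦ : Measurable Φ) :
    Measurable (lab Φ : (Site d → I) → (Idx d → I)) :=
  measurable_pi_lambda _ (fun i => (measurable_pi_apply i.2).comp
    (hΦ.comp (measurable_pi_apply i.1)))

theorem law_lab {Φ : I → (ℕ × Bool → I)} (hΦ : Measurable Φ)
    (hlaw : (volume : Measure I).map Φ = iid (ℕ × Bool) (volume : Measure I)) :
    (iidLaw d (volume : Measure I)).map (lab Φ) = iid (Idx d) (volume : Measure I) := by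
  have h1 := Measure.infinitePi_map_pi (μ := fun _ : Site d => (volume : Measure I))
    (f := fun _ : Site d => Φ) (fun _ => hΦ)
  have h2 := Measure.infinitePi_map_curry_symm (fun (_ : Site d) (_ : ℕ × Bool) =>
    (volume : Measure I))
  rw [hlaw] at h1
  have h3 : iid (Idx d) (volume : Measure I) = Measure.map
      (⇑(MeasurableEquiv.curry (Site d) (ℕ × Bool) I).symm)
      (Measure.infinitePi fun _ : Site d => iid (ℕ × Bool) (volume : Measure I)) := h2.symm
  rw [h3, ← h1, Measure.map_map (MeasurableEquiv.curry (Site d) (ℕ × Bool) I).symm.measurable]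
  · rfl
  · exact measurable_pi_lambda _ (fun i => hΦ.comp (measurable_pi_apply i))

theorem lab_translate (Φ : I → (ℕ × Bool → I)) (a : Site d) (y : Site d → I) :
    lab Φ (translate a y) = fun i : Idx d => lab Φ y (i.1 + a, i.2.1, i.2.2) := rfl

end Pool.Agent.N945.TC
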